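import Pool.Agent.Helper50.KP.Goals

/-!
# Project KP, packet STR
-/

set_option autoImplicit false

namespace Pool.Agent.Helper50.KP

theorem str_cons (e : Ev) (w : Word) (n : ℕ) :
    str (e :: w) n = if e.2 + e.1.i ≤ n then str w (n - e.1.i + e.1.o) else none := rfl

theorem gSTR : STR := by
  refine ⟨?_, ?_, ?_, ?_⟩
  · intro u v
    induction u with
    | nil => intro n; rfl
    | cons e u ih =>
      intro n
      rw [List.cons_append, str_cons, str_cons]
      split_ifs with h
      · exact ih _
      · rfl
  · intro w
    induction w with
    | nil =>
      intro a b d h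
      simp only [str, Option.some.injEq] at h ⊢
      omega
    | cons e w ih =>
      intro a b d h
      rw [str_cons] at h ⊢
      split_ifs at h with h1
      rw [if_pos (by omega)]
      have := ih _ _ d h
      rwa [show a + d - e.1.i + e.1.o = a - e.1.i + e.1.o + d by omega]
  · intro w
    induction w with
    | nil =>
      intro a b k h
      simp only [sh, List.map_nil, str, Option.some.injEq] at h ⊢
      omega
    | cons e w ih =>
      intro a b k h
      show str ((e.1, k + e.2) :: sh k w) (k + a) = _
      rw [str_cons] at h ⊢
      split_ifs at h with h1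
      have h2 : (e.1, k + e.2).2 + (e.1, k + e.2).1.i ≤ k + a := by
        show k + e.2 + e.1.i ≤ k + a
        omega
      rw [if_pos h2]
      have := ih _ _ k h
      show str (sh k w) (k + a - e.1.i + e.1.o) = _
      rwa [show k + a - e.1.i + e.1.o = k + (a - e.1.i + e.1.o) by omega]
  · intro k l w
    unfold sh
    rw [List.map_map]
    refine List.map_congr_left ?_
    intro e _
    show (e.1, k + (l + e.2)) = (e.1, k + l + e.2)
    rw [Nat.add_assoc]

end Pool.Agent.Helper50.KP
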