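import Pool.Agent.Helper50.KP.GoalsF

/-!
# Project KP (MP_5a63b6_lc): assembly
-/

set_option autoImplicit false

namespace Pool.Agent.Helper50.KP

/-- The main theorem from the goals. -/
theorem main (hRED : RED) (hPGE : PGE) (hUNT : UNT) (hKNT : KNT) (hCRS : CRS)
    (hCIO : CIO) (hCIT : CIT) (hCIF : CIF) (hUKN : UKN) (hFLS : FLS)
    (m : ℕ) (hm : 0 < m) (C : ℕ → Gate) (hC : IsCircuit m C) (x : ℕ → Bool) :
    IsKnot (knot m C x) ∧ crossings (knot m C x) ≤ 1536 * m ^ 2 ∧
    (val C x (m - 1) = true → BigonReducible (knot m C x)) ∧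
    (val C x (m - 1) = false → ¬ Unknot (knot m C x)) := by
  have hok := hCIO m C x hC
  have hk : IsKnot (knot m C x) := by
    refine hKNT _ ?_
    intro E hE
    rw [List.length_map, List.length_range]
    obtain ⟨v, hv, rfl⟩ := List.mem_map.1 hE
    exact hPGE.1 _ _ (hok v (List.mem_range.1 hv))
  refine ⟨hk, hCRS m C x hC, ?_, ?_⟩
  · intro hv
    exact (hRED.2 _ _ (hUNT _ _ hok (hCIT m C x hm hC hv)) hk.1).2
  · intro hv hu
    obtain ⟨lk, hl, hc⟩ := hCIF m C x hm hC hv
    have h1 := hFLS _ _ lk hok hc ⟨4 * m - 1, by omega, hl⟩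
    have h2 := hUKN (Equiv.Perm (Fin 5)) _ hu
    rw [Fintype.card_perm, Fintype.card_fin] at h2
    have h3 : cnt (G := Equiv.Perm (Fin 5)) (knot m C x) [] = 120 := by
      rw [h2]
      rfl
    have h4 : (121 : ℕ) ≤ 120 := h3 ▸ h1
    omega

/-- Diagrams which can be untied by removing bigons are diagrams of the unknot. -/
theorem unknot_of_bigon (w : Word) (h : BigonReducible w) : Unknot w := by
  induction h using Relation.ReflTransGen.head_induction_on with
  | refl => exact Relation.ReflTransGen.refl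
  | head h _ ih =>
    refine Relation.ReflTransGen.head ?_ ih
    obtain ⟨h1, h2, u, v, l, r, h3, h4, h5⟩ := h
    refine ⟨h1, h2, u, v, l, r, ?_, h4, h5⟩
    rcases h3 with h3 | h3 | ⟨i, s, rfl, rfl⟩
    · exact Or.inl h3
    · exact Or.inr (Or.inl h3)
    · exact Or.inr (Or.inr (Or.inl (Rd.r2 i s)))

end Pool.Agent.Helper50.KP
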