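import Pool.Agent.Helper50.KP.LOW

/-!
# Project KP, packets COL, BAS, SHF
-/

set_option autoImplicit false

namespace Pool.Agent.Helper50.KP

/-- a cap moves over a cup above it -/
theorem uc (i j : ℕ) (h : i + 2 ≤ j) :
    R [(.cup, i), (.cap, j)] [(.cap, j - 2), (.cup, i)] := by
  obtain ⟨d, rfl⟩ := Nat.exists_eq_add_of_le h
  have h2 : i + 2 + d - 2 = i + Kind.cup.i + d := by
    show i + 2 + d - 2 = i + 0 + d
    omega
  rw [h2]
  exact R_of_lr' _ _ (Or.inl (Pl.comm .cup .cap i d))

theorem colOne (hR : RED) (hS : SLD) (hI : INV) (N i z : ℕ) (E : Prog) (h : fn N 0 E = some 0) :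
    R (col i E ++ [(.cap, 4 * (i + 1) + 2 * z)]) ((.cap, 4 * i + 2 * z) :: col i (er1 z 0 E)) := by
  obtain ⟨-, h2, h3⟩ := hI.1 N 0 0 E (Nat.zero_le _) h
  have s1 := hS N z (4 * i + 1) 0 0 E h
  have s2 := hS N z (4 * i + 3) 0 0 (inv E) h2
  rw [h3 z] at s2
  have hn : nw z 0 = 0 := by unfold nw; split_ifs <;> omega
  rw [hn, if_pos (Nat.zero_le _)] at s1 s2
  unfold col
  have j1 := hR.1 ((.cup, 4 * i) :: low (4 * i + 1) 0 E ++ [(.cup, 4 * i + 2)]) [] _ _ s2
  have j2 := hR.1 ((.cup, 4 * i) :: low (4 * i + 1) 0 E)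
    (low (4 * i + 3) 0 (inv (er1 z 0 E))) _ _ (uc (4 * i + 2) (4 * i + 3 + 2 * z + 1) (by omega))
  have j3 := hR.1 [(.cup, 4 * i)] ((.cup, 4 * i + 2) :: low (4 * i + 3) 0 (inv (er1 z 0 E))) _ _ s1
  have j4 := hR.1 [] (low (4 * i + 1) 0 (er1 z 0 E) ++
    (.cup, 4 * i + 2) :: low (4 * i + 3) 0 (inv (er1 z 0 E))) _ _
    (uc (4 * i) (4 * i + 1 + 2 * z + 1) (by omega))
  rw [show 4 * i + 3 + 2 * z + 1 = 4 * (i + 1) + 2 * z by ring] at j1 j2
  rw [show 4 * (i + 1) + 2 * z - 2 = 4 * i + 1 + 2 * z + 1 by omega] at j2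
  rw [show 4 * i + 1 + 2 * z + 1 - 2 = 4 * i + 2 * z by omega] at j4
  simp only [List.append_nil, List.nil_append, List.cons_append,
    List.append_assoc] at j1 j2 j3 j4 ⊢
  exact j1.trans (j2.trans (j3.trans j4))

theorem gCOL (hR : RED) (hS : SLD) (hI : INV) : COL := by
  intro z i Es
  induction Es generalizing i with
  | nil =>
    intro _
    simp only [cols, List.length_nil, Nat.add_zero, List.nil_append, List.map_nil]
    exact Relation.ReflTransGen.refl
  | cons E Es ih =>
    intro h
    obtain ⟨N, hN⟩ := h E List.mem_cons_self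
    have h1 := ih (i + 1) (fun E' hE' => h E' (List.mem_cons_of_mem _ hE'))
    have h2 := colOne hR hS hI N i z E hN
    show R (col i E ++ cols (i + 1) Es ++ _) (_ :: (col i (er1 z 0 E) ++ cols (i + 1) (Es.map (er1 z 0))))
    have j1 := hR.1 (col i E) [] _ _ h1
    have j2 := hR.1 [] (cols (i + 1) (Es.map (er1 z 0))) _ _ h2
    rw [List.length_cons, show i + (Es.length + 1) = i + 1 + Es.length by ring]
    simp only [List.append_nil, List.nil_append, List.cons_append,
      List.append_assoc] at j1 j2 ⊢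
    exact j1.trans j2

theorem gBAS (hR : RED) : BAS := by
  intro k
  induction k with
  | zero =>
    intro z hz
    rw [Nat.zero_add, List.replicate_zero]
    have : z = 0 ∨ z = 1 := by omega
    rcases this with rfl | rfl
    · exact R_of_lr [(.cup, 1), (.cap, 0)] [] [(.cup, 0)] [] (Or.inl (Pl.zag 0))
    · exact R_of_lr [(.cup, 1), (.cap, 2)] [] [(.cup, 0)] [] (Or.inl (Pl.zig 1))
  | succ k ih =>
    intro z hz
    have e : ∀ j : ℕ, List.replicate (j + 1) ((Kind.cup, 1) : Ev) =
        List.replicate j (Kind.cup, 1) ++ [(Kind.cup, 1)] := fun j => List.replicate_succ'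
    by_cases h0 : z = 0
    · subst h0
      rw [e (k + 1)]
      have := R_of_lr [(.cup, 1), (.cap, 0)] [] ((.cup, 0) :: List.replicate (k + 1) (.cup, 1)) []
        (Or.inl (Pl.zag 0))
      simpa using this
    by_cases h1 : z = 1
    · subst h1
      rw [e (k + 1)]
      have := R_of_lr [(.cup, 1), (.cap, 2)] [] ((.cup, 0) :: List.replicate (k + 1) (.cup, 1)) []
        (Or.inl (Pl.zig 1))
      simpa using this
    · have h2 := ih (z - 1) (by omega)
      have h3 := uc 1 (2 * z) (by omega)
      rw [show 2 * z - 2 = 2 * (z - 1) by omega] at h3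
      have j1 := hR.1 ((.cup, 0) :: List.replicate (k + 1) (.cup, 1)) [] _ _ h3
      have j2 := hR.1 [] [(.cup, 1)] _ _ h2
      rw [e (k + 1), e k]
      rw [e k] at j1 j2
      generalize List.replicate k ((Kind.cup, 1) : Ev) = A at j1 j2
      simp only [List.append_nil, List.nil_append, List.cons_append,
        List.append_assoc] at j1 j2 ⊢
      exact j1.trans j2

theorem low_sh (k p c : ℕ) (P : Prog) : low (k + p) c P = sh k (low p c P) := by
  induction P generalizing c with
  | nil => rw [low_nil, low_nil]; rfl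
  | cons I P ih =>
    cases I with
    | D s =>
      rw [low_D, low_D, ih]
      show _ = (Kind.X s, k + (p + 2 * c)) :: (Kind.X s, k + (p + 2 * c + 1)) :: sh k (low p (c + 1) P)
      rw [show k + (p + 2 * c) = k + p + 2 * c by ring,
        show k + (p + 2 * c + 1) = k + p + 2 * c + 1 by ring]
    | U s =>
      cases c with
      | zero => rfl
      | succ c =>
        rw [low_U, low_U, ih]
        show _ = (Kind.X (!s), k + (p + 2 * c + 1)) :: (Kind.X (!s), k + (p + 2 * c)) ::
          sh k (low p c P)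
        rw [show k + (p + 2 * c) = k + p + 2 * c by ring,
          show k + (p + 2 * c + 1) = k + p + 2 * c + 1 by ring]

theorem sh_append (k : ℕ) (u v : Word) : sh k (u ++ v) = sh k u ++ sh k v := by
  unfold sh
  rw [List.map_append]

theorem sh_cons (k : ℕ) (K : Kind) (i : ℕ) (v : Word) :
    sh k ((K, i) :: v) = (K, k + i) :: sh k v := rfl

theorem col_sh (i j : ℕ) (E : Prog) : col (i + j) E = sh (4 * i) (col j E) := by
  unfold col
  rw [sh_append, sh_cons, sh_cons, ← low_sh, ← low_sh,
    show 4 * (i + j) = 4 * i + 4 * j by ring,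
    show 4 * i + 4 * j + 1 = 4 * i + (4 * j + 1) by ring,
    show 4 * i + 4 * j + 2 = 4 * i + (4 * j + 2) by ring,
    show 4 * i + 4 * j + 3 = 4 * i + (4 * j + 3) by ring]

theorem gSHF : SHF := by
  refine ⟨?_, ?_, ?_, ?_⟩
  · intro i j Es
    induction Es generalizing j with
    | nil => rfl
    | cons E Es ih =>
      show col (i + j) E ++ cols (i + j + 1) Es = sh (4 * i) (col j E ++ cols (j + 1) Es)
      rw [sh_append, col_sh, Nat.add_assoc, ih]
  · intro i As Bs
    induction As generalizing i with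
    | nil => rfl
    | cons A As ih =>
      show col i A ++ cols (i + 1) (As ++ Bs) = col i A ++ cols (i + 1) As ++ _
      rw [ih, List.append_assoc, List.length_cons,
        show i + (As.length + 1) = i + 1 + As.length by ring]
  · intro i j
    induction j with
    | zero => rfl
    | succ j ih =>
      show (Kind.cap, i + j) :: nest (i + j) = sh i ((Kind.cap, j) :: nest j) ++ nest i
      rw [ih, sh_cons]
      rfl
  · intro k
    induction k with
    | zero => rfl
    | succ k ih =>
      show str ((Kind.cap, k) :: nest k) (2 * (k + 1)) = some 0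
      rw [str_cons]
      have h1 : ((Kind.cap, k) : Ev).2 + ((Kind.cap, k) : Ev).1.i ≤ 2 * (k + 1) := by
        show k + 2 ≤ 2 * (k + 1)
        omega
      rw [if_pos h1]
      show str (nest k) (2 * (k + 1) - 2 + 0) = some 0
      rw [show 2 * (k + 1) - 2 + 0 = 2 * k by omega]
      exact ih

end Pool.Agent.Helper50.KP
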