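import Pool.Agent.Helper50.KP.RED

/-!
# Project KP, packet COM
-/

set_option autoImplicit false

namespace Pool.Agent.Helper50.KP

theorem R_of_lr (l r u v : Word) (h : Lr l r) : R (u ++ l ++ v) (u ++ r ++ v) :=
  Relation.ReflTransGen.single ⟨u, v, l, r, h, rfl, rfl⟩

theorem R_of_lr' (l r : Word) (h : Lr l r) : R l r := by
  have := R_of_lr l r [] [] h
  simpa using this

theorem com1 (hR : RED) (K' : Kind) (d : ℕ) : ∀ (w : Word) (a b : ℕ), str w a = some b →
    R (w ++ [(K', b + d)]) ((K', a + d) :: w) ∧ R ((K', a + d) :: w) (w ++ [(K', b + d)]) := by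
  intro w
  induction w with
  | nil =>
    intro a b h
    rw [str_nil, Option.some.injEq] at h
    subst h
    exact ⟨Relation.ReflTransGen.refl, Relation.ReflTransGen.refl⟩
  | cons e w ih =>
    intro a b h
    obtain ⟨K, i⟩ := e
    rw [str_cons] at h
    split_ifs at h with h1
    replace h1 : i + K.i ≤ a := h1
    replace h : str w (a - K.i + K.o) = some b := h
    obtain ⟨i1, i2⟩ := ih _ _ h
    have e1 : a - K.i + K.o + d = i + K.o + (a - K.i - i + d) := by omega
    have e2 : a + d = i + K.i + (a - K.i - i + d) := by omega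
    have c1 : R ([(K, i), (K', a - K.i + K.o + d)] ++ w) ([(K', a + d), (K, i)] ++ w) := by
      have := R_of_lr _ _ [] w (Or.inl (Pl.comm K K' i (a - K.i - i + d)))
      rw [← e1, ← e2] at this
      simpa using this
    have c2 : R ([(K', a + d), (K, i)] ++ w) ([(K, i), (K', a - K.i + K.o + d)] ++ w) := by
      have := R_of_lr _ _ [] w (Or.inr (Or.inl ⟨Pl.comm K K' i (a - K.i - i + d), by simp⟩))
      rw [← e1, ← e2] at this
      simpa using this
    have j1 := hR.1 [(K, i)] [] _ _ i1
    have j2 := hR.1 [(K, i)] [] _ _ i2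
    simp only [List.append_nil, List.singleton_append] at j1 j2
    exact ⟨j1.trans c1, c2.trans j2⟩

theorem gCOM (hR : RED) : COM := by
  intro w w'
  induction w' with
  | nil =>
    intro a b _
    simp only [sh, List.map_nil, List.append_nil, List.nil_append]
    exact ⟨Relation.ReflTransGen.refl, Relation.ReflTransGen.refl⟩
  | cons e w' ih =>
    intro a b h
    obtain ⟨i1, i2⟩ := ih a b h
    obtain ⟨j1, j2⟩ := com1 hR e.1 e.2 w a b h
    have e1 : ∀ k, sh k (e :: w') = (e.1, k + e.2) :: sh k w' := fun k => rfl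
    rw [e1, e1]
    have k1 := hR.1 [] (sh b w') _ _ j1
    have k2 := hR.1 [] (sh b w') _ _ j2
    have l1 := hR.1 [(e.1, a + e.2)] [] _ _ i1
    have l2 := hR.1 [(e.1, a + e.2)] [] _ _ i2
    simp only [List.append_nil, List.nil_append, List.singleton_append, List.append_assoc,
      List.cons_append] at k1 k2 l1 l2 ⊢
    exact ⟨k1.trans l1, l2.trans k2⟩

end Pool.Agent.Helper50.KP
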