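import Pool.Agent.Helper50.KP.ERC

/-!
# Project KP, packet DIA
-/

set_option autoImplicit false

namespace Pool.Agent.Helper50.KP

theorem str_low (N p n : ℕ) (hn : p + 2 * N + 1 ≤ n) (P : Prog) :
    ∀ c c' : ℕ, c ≤ N → fn N c P = some c' → str (low p c P) n = some n := by
  induction P with
  | nil =>
    intro c c' _ _
    rw [low_nil, str_nil]
  | cons I P ih =>
    intro c c' hc h
    cases I with
    | D s =>
      rw [fn_D] at h
      split_ifs at h with h1
      rw [low_D, str_cons, str_cons]
      simp only [Kind.i, Kind.o]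
      rw [if_pos (by omega), if_pos (by omega), show n - 2 + 2 - 2 + 2 = n by omega]
      exact ih _ _ h1 h
    | U s =>
      cases c with
      | zero => exact absurd h (by rw [fn_U0]; simp)
      | succ c =>
        rw [fn_U] at h
        rw [low_U, str_cons, str_cons]
        simp only [Kind.i, Kind.o]
        rw [if_pos (by omega), if_pos (by omega), show n - 2 + 2 - 2 + 2 = n by omega]
        exact ih _ _ (by omega) h

theorem str_col (hT : STR) (hI : INV) (N i : ℕ) (E : Prog) (h : fn N 0 E = some 0) :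
    str (col i E) (4 * i + 2 * N + 2) = some (4 * (i + 1) + 2 * N + 2) := by
  have h2 := (hI.1 N 0 0 E (Nat.zero_le _) h).2.1
  have a1 := str_low N (4 * i + 1) (4 * i + 2 * N + 2 + 2) (by omega) E 0 0 (Nat.zero_le _) h
  have a2 := str_low N (4 * i + 3) (4 * i + 2 * N + 2 + 2 + 2) (by omega) (inv E) 0 0
    (Nat.zero_le _) h2
  unfold col
  rw [List.cons_append, str_cons]
  simp only [Kind.i, Kind.o]
  rw [if_pos (by omega), Nat.sub_zero, hT.1, a1]
  show str ((Kind.cup, 4 * i + 2) :: low (4 * i + 3) 0 (inv E)) (4 * i + 2 * N + 2 + 2) = _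
  rw [str_cons]
  simp only [Kind.i, Kind.o]
  rw [if_pos (by omega), Nat.sub_zero, a2]
  congr 1
  omega

theorem str_cols (hT : STR) (hI : INV) (N : ℕ) (Es : List Prog)
    (h : ∀ E ∈ Es, fn N 0 E = some 0) (i : ℕ) :
    str (cols i Es) (4 * i + 2 * N + 2) = some (4 * (i + Es.length) + 2 * N + 2) := by
  induction Es generalizing i with
  | nil => rfl
  | cons E Es ih =>
    show str (col i E ++ cols (i + 1) Es) _ = _
    rw [hT.1, str_col hT hI N i E (h E List.mem_cons_self)]
    show str (cols (i + 1) Es) _ = _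
    rw [ih (fun E' hE' => h E' (List.mem_cons_of_mem _ hE')) (i + 1), List.length_cons]
    congr 1
    ring

theorem str_base (hT : STR) (k : ℕ) :
    str ((Kind.cup, 0) :: List.replicate k (Kind.cup, 1)) 0 = some (2 * k + 2) := by
  induction k with
  | zero => rfl
  | succ k ih =>
    rw [List.replicate_succ', ← List.cons_append, hT.1, ih]
    show str [(Kind.cup, 1)] (2 * k + 2) = _
    rw [str_cons]
    simp only [Kind.i, Kind.o]
    rw [if_pos (by omega), str_nil]
    congr 1

theorem oDIA (hT : STR) (hI : INV) : DIA := by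
  intro Es h
  unfold IsDia dia base
  have a1 := str_base hT (2 * Es.length)
  have a2 := str_cols hT hI (2 * Es.length) Es h 0
  have a3 : str (nest (4 * Es.length)) (2 * (4 * Es.length) + 2) = some (0 + 2) :=
    hT.2.1 _ _ _ _ ((gSHF).2.2.2 _)
  rw [hT.1, hT.1, hT.1, a1]
  show (((str (cols 0 Es) (2 * (2 * Es.length) + 2)).bind (str (nest (4 * Es.length)))).bind
    (str [(Kind.cap, 0)])) = some 0
  rw [show 2 * (2 * Es.length) + 2 = 4 * 0 + 2 * (2 * Es.length) + 2 by ring, a2]
  show ((str (nest (4 * Es.length)) (4 * (0 + Es.length) + 2 * (2 * Es.length) + 2)).bind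
    (str [(Kind.cap, 0)])) = some 0
  rw [show 4 * (0 + Es.length) + 2 * (2 * Es.length) + 2 = 2 * (4 * Es.length) + 2 by ring, a3]
  rfl

end Pool.Agent.Helper50.KP
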