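import Mathlib

/-!
# Project KP (MP_5a63b6_lc): recognising the unknot is P-hard.  Definitions.

Diagrams are in Morse position: the plane is read from left to right, the strands that cross a
vertical line are numbered `0, 1, 2, ...` from top to bottom.
-/

set_option autoImplicit false

namespace Pool.Agent.Helper50.KP

/-! ### Diagrams -/

/-- Elementary pieces: `cup` creates two neighbouring strands (it opens to the right), `cap` joins two
neighbouring strands, `X s` is a crossing of two neighbouring strands; for `s = true` the strand
that comes from above (number `i`) is over, for `s = false` the strand that comes from below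
(number `i + 1`) is over. -/
inductive Kind
  | cup | cap | X (s : Bool)
  deriving DecidableEq

/-- the number of strands that enter a piece -/
def Kind.i : Kind → ℕ
  | .cup => 0
  | .cap => 2
  | .X _ => 2

/-- the number of strands that leave a piece -/
def Kind.o : Kind → ℕ
  | .cup => 2
  | .cap => 0
  | .X _ => 2

/-- A piece and its place: `(K, k)` acts on (or creates) the strands `k`, `k + 1`. -/
abbrev Ev : Type := Kind × ℕ

/-- A sequence of pieces, from left to right. -/
abbrev Word : Type := List Ev

/-- The number of strands on the right of a word, if there are `n` on the left (`none` if a piece does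
not fit). -/
def str : Word → ℕ → Option ℕ
  | [], n => some n
  | e :: w, n => if e.2 + e.1.i ≤ n then str w (n - e.1.i + e.1.o) else none

/-- Link diagrams: no strands at both ends. -/
def IsDia (w : Word) : Prop := str w 0 = some 0

/-- `Lab w c L`: the choices `c` (one bit for each cup) and the bits `L` of the strands on the left
give a labelling of all strands of `w` which is constant along the curves, and no strand is left at
the end. -/
def Lab : Word → List Bool → List Bool → Prop
  | [], c, L => c = [] ∧ L = []
  | (.cup, k) :: w, c, L => ∃ b c', c = b :: c' ∧ Lab w c' (L.take k ++ b :: b :: L.drop k)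
  | (.cap, k) :: w, c, L => ∃ b R, L.drop k = b :: b :: R ∧ Lab w c (L.take k ++ R)
  | (.X _, k) :: w, c, L => ∃ a b R, L.drop k = a :: b :: R ∧ Lab w c (L.take k ++ b :: a :: R)

/-- Knot diagrams: link diagrams with one component (every labelling of the curves by bits is
constant). -/
def IsKnot (w : Word) : Prop :=
  IsDia w ∧ w ≠ [] ∧ ∀ c, Lab w c [] → ∀ x ∈ c, ∀ y ∈ c, x = y

/-- the number of crossings -/
def crossings (w : Word) : ℕ := w.countP fun e => match e.1 with
  | .X _ => true
  | _ => false

/-! ### Moves -/

/-- Planar isotopies of diagrams in Morse position: straightening of a zigzag, moving a crossing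
around a cap or a cup, and exchange of two pieces that act on disjoint sets of strands. -/
inductive Pl : Word → Word → Prop
  | zig (i : ℕ) : Pl [(.cup, i), (.cap, i + 1)] []
  | zag (i : ℕ) : Pl [(.cup, i + 1), (.cap, i)] []
  | pcap (i : ℕ) (s : Bool) : Pl [(.X s, i), (.cap, i + 1)] [(.X (!s), i + 1), (.cap, i)]
  | pcup (i : ℕ) (s : Bool) : Pl [(.cup, i + 1), (.X s, i)] [(.cup, i), (.X (!s), i + 1)]
  | comm (K K' : Kind) (i d : ℕ) :
      Pl [(K, i), (K', i + K.o + d)] [(K', i + K.i + d), (K, i)]

/-- The Reidemeister moves.  In `r3` the strands `1, 2, 3` (from above on the left side) cross in the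
order `12, 13, 23` or `23, 13, 12`; the condition says that the three crossings are not cyclic. -/
inductive Rd : Word → Word → Prop
  | r1cup (i : ℕ) (s : Bool) : Rd [(.cup, i), (.X s, i)] [(.cup, i)]
  | r1cap (i : ℕ) (s : Bool) : Rd [(.X s, i), (.cap, i)] [(.cap, i)]
  | r2 (i : ℕ) (s : Bool) : Rd [(.X s, i), (.X (!s), i)] []
  | r3 (i : ℕ) (s t u : Bool) : (s = u → t = s) →
      Rd [(.X s, i), (.X t, i + 1), (.X u, i)] [(.X u, i + 1), (.X t, i), (.X s, i + 1)]

/-- Two diagrams differ by a planar isotopy or a Reidemeister move, in one of the two directions. -/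
def Step (w w' : Word) : Prop :=
  IsDia w ∧ IsDia w' ∧ ∃ u v l r, (Pl l r ∨ Pl r l ∨ Rd l r ∨ Rd r l) ∧
    w = u ++ l ++ v ∧ w' = u ++ r ++ v

/-- Planar isotopy, or removal of a bigon (a Reidemeister move of the second kind that decreases the
number of crossings). -/
def Down (w w' : Word) : Prop :=
  IsDia w ∧ IsDia w' ∧ ∃ u v l r,
    (Pl l r ∨ Pl r l ∨ ∃ i s, l = [(.X s, i), (.X (!s), i)] ∧ r = []) ∧
    w = u ++ l ++ v ∧ w' = u ++ r ++ v

/-- The round circle. -/
def circle : Word := [(.cup, 0), (.cap, 0)]

/-- Diagrams of the unknot. -/
def Unknot (w : Word) : Prop := Relation.ReflTransGen Step w circle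

/-- Diagrams which can be untied by removing bigons only. -/
def BigonReducible (w : Word) : Prop := Relation.ReflTransGen Down w circle

/-! ### Programs -/

/-- A strand `t` moves through a sequence of bands (pairs of parallel strands): `D s`: it crosses the
next band below, `U s`: it crosses the next band above; `t` is over for `s = true` and under for
`s = false`. -/
inductive Ins
  | D (s : Bool) | U (s : Bool)
  deriving DecidableEq

/-- programs -/
abbrev Prog : Type := List Ins

/-- The crossings made by a program; the first band begins at the place `p`, there are `c` bands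
above `t`. -/
def low (p : ℕ) : ℕ → Prog → Word
  | _, [] => []
  | c, .D s :: P => (.X s, p + 2 * c) :: (.X s, p + 2 * c + 1) :: low p (c + 1) P
  | c + 1, .U s :: P => (.X (!s), p + 2 * c + 1) :: (.X (!s), p + 2 * c) :: low p c P
  | 0, .U _ :: _ => []

/-- the inverse instruction -/
def Ins.inv : Ins → Ins
  | .D s => .U s
  | .U s => .D s

/-- the inverse program -/
def inv (P : Prog) : Prog := (P.map Ins.inv).reverse

/-- The hook of `t` on the bands number `k` and `k + m + 1`: a commutator. -/
def hook (k m : ℕ) : Prog :=
  List.replicate k (.D true) ++ [.D false] ++ List.replicate m (.D true) ++ [.D false, .U true] ++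
    List.replicate m (.U true) ++ [.U false, .D true] ++ List.replicate m (.D true) ++
    [.D true, .U false] ++ List.replicate m (.U true) ++ [.U true] ++ List.replicate k (.U true)

/-! ### The diagrams -/

/-- Column number `i`: two new fingers are opened, the lower strand of the first runs through `E` and
that of the second runs through the inverse of `E`. -/
def col (i : ℕ) (E : Prog) : Word :=
  (.cup, 4 * i) :: low (4 * i + 1) 0 E ++ (.cup, 4 * i + 2) :: low (4 * i + 3) 0 (inv E)

/-- columns -/
def cols : ℕ → List Prog → Word
  | _, [] => []
  | i, E :: Es => col i E ++ cols (i + 1) Es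

/-- The left end with `2 n` bands and one extra band. -/
def base (n : ℕ) : Word := (.cup, 0) :: List.replicate (2 * n) (.cup, 1)

/-- nested caps `k - 1, ..., 1, 0` -/
def nest : ℕ → Word
  | 0 => []
  | k + 1 => (.cap, k) :: nest k

/-- The diagram of a list of programs. -/
def dia (Es : List Prog) : Word :=
  base Es.length ++ cols 0 Es ++ nest (4 * Es.length) ++ [(.cap, 0)]

/-- The program of the wire `v` (of `n` wires) with the list of pairs `ps`: the wire `x` is the row
number `n - 1 - x`, its first band is hooked. -/
def prog (n : ℕ) (ps : List (ℕ × ℕ)) : Prog :=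
  (ps.map fun e => hook (2 * (n - 1 - max e.1 e.2)) (2 * (max e.1 e.2 - min e.1 e.2) - 1)).flatten

/-- The diagram of a system of `n` wires. -/
def sys (n : ℕ) (ps : ℕ → List (ℕ × ℕ)) : Word :=
  dia ((List.range n).map fun v => prog n (ps v))

/-! ### Circuits -/

/-- Gates of a Boolean circuit: an input, or a NAND of two earlier gates. -/
inductive Gate
  | inp (l : ℕ) | nand (j k : ℕ)

/-- the value of a gate, if `v` is the list of the values of the earlier gates -/
def Gate.ev (x : ℕ → Bool) (v : List Bool) : Gate → Bool
  | .inp l => x l
  | .nand j k => !(v.getD j false && v.getD k false)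

/-- the values of the first `m` gates -/
def vals (C : ℕ → Gate) (x : ℕ → Bool) : ℕ → List Bool
  | 0 => []
  | m + 1 => vals C x m ++ [(C m).ev x (vals C x m)]

/-- The value of the gate `i`. -/
def val (C : ℕ → Gate) (x : ℕ → Bool) (i : ℕ) : Bool := (C i).ev x (vals C x i)

/-- `C` is a circuit with `m` gates. -/
def IsCircuit (m : ℕ) (C : ℕ → Gate) : Prop :=
  ∀ i < m, ∀ j k, C i = .nand j k → j < i ∧ k < i

/-- The pairs of the wires of a gate.  The gate `i` has the wires `4 i`, `4 i + 1` (locked if the value
is `true`) and `4 i + 2`, `4 i + 3` (locked if the value is `false`); `b` says which of these.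
Inputs are attached to the wires `4 m - 2`, `4 m - 1` of the last gate. -/
def pairs (m : ℕ) (x : ℕ → Bool) (b : Bool) : Gate → List (ℕ × ℕ)
  | .inp l => if x l = b then [(4 * m - 2, 4 * m - 1)] else []
  | .nand j k =>
    if b then [(4 * j + 2, 4 * k + 3), (4 * j + 2, 4 * k + 1), (4 * j, 4 * k + 3)]
    else [(4 * j, 4 * k + 1)]

/-- The knot diagram of a circuit with `m` gates and input `x`. -/
def knot (m : ℕ) (C : ℕ → Gate) (x : ℕ → Bool) : Word :=
  sys (4 * m) fun v => pairs m x (decide (v % 4 < 2)) (C (v / 4))

end Pool.Agent.Helper50.KP
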