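import Pool.Agent.Helper50.KP.REM

/-!
# Project KP, packets ERC, HKE, PGE
-/

set_option autoImplicit false

namespace Pool.Agent.Helper50.KP

theorem cn_succ (S : ℕ → Bool) (c : ℕ) : cn S (c + 1) = cn S c + if S c = true then 1 else 0 := by
  unfold cn
  rw [Nat.count_succ]

theorem cn_zero (S : ℕ → Bool) : cn S 0 = 0 := by
  unfold cn
  exact Nat.count_zero _

theorem cn_mono (S : ℕ → Bool) : Monotone (cn S) := by
  intro a b h
  exact Nat.count_monotone _ h

theorem cn_lt (S : ℕ → Bool) (a b : ℕ) (h : a < b) (ha : S a = true) : cn S a < cn S b := by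
  have h1 : cn S (a + 1) ≤ cn S b := cn_mono S h
  rw [cn_succ, if_pos ha] at h1
  omega

theorem cn_eq (S : ℕ → Bool) (z c : ℕ) (hz : S z = true) (hc : S c = true) :
    cn S z = cn S c ↔ z = c := by
  constructor
  · intro h
    rcases lt_trichotomy z c with h1 | h1 | h1
    · have := cn_lt S z c h1 hz; omega
    · exact h1
    · have := cn_lt S c z h1 hc; omega
  · intro h; rw [h]

theorem gERC : ERC := by
  refine ⟨?_, ?_⟩
  · intro S z c P hz
    induction P generalizing c with
    | nil => rw [er_nil, er1_nil, er_nil]
    | cons I P ih =>
      cases I with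
      | D s =>
        rw [er_D, er_D]
        by_cases hc : S c = true
        · rw [if_pos hc, er1_D]
          have h1 : cn S c + 1 = cn S (c + 1) := by rw [cn_succ, if_pos hc]
          rw [h1, ih]
          by_cases hzc : z = c
          · rw [if_pos ((cn_eq S z c hz hc).2 hzc), if_neg]
            rw [hzc]; simp
          · rw [if_neg (fun h => hzc ((cn_eq S z c hz hc).1 h)), if_pos]
            simp only [hc, Bool.true_and, decide_eq_true_eq]
            exact fun h => hzc h.symm
        · rw [if_neg hc, if_neg]
          · have h1 : cn S c = cn S (c + 1) := by rw [cn_succ, if_neg hc]; rfl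
            rw [h1, ih]
          · intro h
            rw [Bool.and_eq_true] at h
            exact hc h.1
      | U s =>
        cases c with
        | zero =>
          show er1 (cn S z) (cn S 0) [] = []
          rw [er1_nil]
        | succ c =>
          rw [er_U, er_U]
          by_cases hc : S c = true
          · rw [if_pos hc, cn_succ, if_pos hc, er1_U, ih]
            by_cases hzc : z = c
            · rw [if_pos ((cn_eq S z c hz hc).2 hzc), if_neg]
              rw [hzc]; simp
            · rw [if_neg (fun h => hzc ((cn_eq S z c hz hc).1 h)), if_pos]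
              simp only [hc, Bool.true_and, decide_eq_true_eq]
              exact fun h => hzc h.symm
          · rw [if_neg hc, if_neg, cn_succ, if_neg hc, Nat.add_zero, ih]
            intro h
            rw [Bool.and_eq_true] at h
            exact hc h.1
  · intro S N c c' P h
    induction P generalizing c with
    | nil =>
      rw [fn_nil, Option.some.injEq] at h
      rw [er_nil, fn_nil, h]
    | cons I P ih =>
      cases I with
      | D s =>
        rw [fn_D] at h
        split_ifs at h with h1
        have h2 := ih (c + 1) h
        rw [er_D]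
        by_cases hc : S c = true
        · rw [if_pos hc, fn_D, if_pos (cn_lt S c N h1 hc)]
          rwa [cn_succ, if_pos hc] at h2
        · rw [if_neg hc]
          rwa [cn_succ, if_neg hc, Nat.add_zero] at h2
      | U s =>
        cases c with
        | zero => exact absurd h (by rw [fn_U0]; simp)
        | succ c =>
          rw [fn_U] at h
          have h2 := ih c h
          rw [er_U]
          by_cases hc : S c = true
          · rw [if_pos hc, cn_succ, if_pos hc, fn_U]
            exact h2
          · rw [if_neg hc, cn_succ, if_neg hc, Nat.add_zero]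
            exact h2

theorem fn_repD (N c k : ℕ) (s : Bool) (h : c + k ≤ N) :
    fn N c (List.replicate k (.D s)) = some (c + k) := by
  induction k generalizing c with
  | zero => exact fn_nil _ _
  | succ k ih =>
    rw [List.replicate_succ, fn_D, if_pos (by omega), ih (c + 1) (by omega)]
    congr 1
    omega

theorem fn_repU (N c k : ℕ) (s : Bool) :
    fn N (c + k) (List.replicate k (.U s)) = some c := by
  induction k generalizing c with
  | zero => exact fn_nil _ _
  | succ k ih =>
    rw [List.replicate_succ, show c + (k + 1) = (c + k) + 1 by ring, fn_U]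
    exact ih c

/-- the number of bands of `S` in `[c, c + j)` -/
def cb (S : ℕ → Bool) (c : ℕ) : ℕ → ℕ
  | 0 => 0
  | j + 1 => (if S c = true then 1 else 0) + cb S (c + 1) j

theorem cb_last (S : ℕ → Bool) (c j : ℕ) :
    cb S c (j + 1) = cb S c j + if S (c + j) = true then 1 else 0 := by
  induction j generalizing c with
  | zero => simp [cb]
  | succ j ih =>
    rw [cb, ih (c + 1), cb, show c + 1 + j = c + (j + 1) by ring]
    ring

theorem er_repD (S : ℕ → Bool) (c k : ℕ) (s : Bool) :
    er S c (List.replicate k (.D s)) = List.replicate (cb S c k) (.D s) := by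
  induction k generalizing c with
  | zero => exact er_nil _ _
  | succ k ih =>
    rw [List.replicate_succ, er_D, ih (c + 1), cb]
    by_cases h : S c = true
    · rw [if_pos h, if_pos h, Nat.add_comm 1 (cb S (c + 1) k), List.replicate_succ]
    · rw [if_neg h, if_neg h, Nat.zero_add]

theorem er_repU (S : ℕ → Bool) (c k : ℕ) (s : Bool) :
    er S (c + k) (List.replicate k (.U s)) = List.replicate (cb S c k) (.U s) := by
  induction k with
  | zero => exact er_nil _ _
  | succ k ih =>
    rw [List.replicate_succ, show c + (k + 1) = (c + k) + 1 by ring, er_U, ih, cb_last]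
    by_cases h : S (c + k) = true
    · rw [if_pos h, if_pos h, List.replicate_succ]
    · rw [if_neg h, if_neg h, Nat.add_zero]

theorem PR_step (A B : Prog) (s : Bool) : PR (A ++ [.D s, .U s] ++ B) (A ++ B) :=
  Relation.ReflTransGen.single ⟨A, B, s, Or.inl rfl, rfl⟩

theorem PR_step' (A B : Prog) (s : Bool) : PR (A ++ [.U s, .D s] ++ B) (A ++ B) :=
  Relation.ReflTransGen.single ⟨A, B, s, Or.inr rfl, rfl⟩

theorem PR_DU (A B : Prog) (s : Bool) (j : ℕ) :
    PR (A ++ (List.replicate j (.D s) ++ (List.replicate j (.U s) ++ B))) (A ++ B) := by
  induction j with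
  | zero => exact Relation.ReflTransGen.refl
  | succ j ih =>
    have h := PR_step (A ++ List.replicate j (.D s)) (List.replicate j (.U s) ++ B) s
    rw [List.replicate_succ' (n := j) (a := Ins.D s), List.replicate_succ (n := j) (a := Ins.U s)]
    simp only [List.append_assoc, List.cons_append, List.nil_append] at h ih ⊢
    exact h.trans ih

theorem PR_UD (A B : Prog) (s : Bool) (j : ℕ) :
    PR (A ++ (List.replicate j (.U s) ++ (List.replicate j (.D s) ++ B))) (A ++ B) := by
  induction j with
  | zero => exact Relation.ReflTransGen.refl
  | succ j ih =>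
    have h := PR_step' (A ++ List.replicate j (.U s)) (List.replicate j (.D s) ++ B) s
    rw [List.replicate_succ' (n := j) (a := Ins.U s), List.replicate_succ (n := j) (a := Ins.D s)]
    simp only [List.append_assoc, List.cons_append, List.nil_append] at h ih ⊢
    exact h.trans ih

/-- instruction present iff `b` -/
def opt (b : Bool) (I : Ins) : Prog := if b then [I] else []

theorem opt_eq (b : Bool) (I : Ins) : opt b I = List.replicate (if b = true then 1 else 0) I := by
  unfold opt
  split_ifs <;> rfl

theorem er_hook (hL : LOW) (S : ℕ → Bool) (k m : ℕ) :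
    er S 0 (hook k m) =
      List.replicate (cb S 0 k) (Ins.D true) ++ (List.replicate (cb S k 1) (Ins.D false) ++
      (List.replicate (cb S (k + 1) m) (Ins.D true) ++
      (List.replicate (cb S (k + m + 1) 1) (Ins.D false) ++
      (List.replicate (cb S (k + m + 1) 1) (Ins.U true) ++
      (List.replicate (cb S (k + 1) m) (Ins.U true) ++
      (List.replicate (cb S k 1) (Ins.U false) ++ (List.replicate (cb S k 1) (Ins.D true) ++
      (List.replicate (cb S (k + 1) m) (Ins.D true) ++
      (List.replicate (cb S (k + m + 1) 1) (Ins.D true) ++
      (List.replicate (cb S (k + m + 1) 1) (Ins.U false) ++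
      (List.replicate (cb S (k + 1) m) (Ins.U true) ++
      (List.replicate (cb S k 1) (Ins.U true) ++
      List.replicate (cb S 0 k) (Ins.U true))))))))))))) := by
  have hh : hook k m = List.replicate k (Ins.D true) ++ (List.replicate 1 (Ins.D false) ++
      (List.replicate m (Ins.D true) ++ (List.replicate 1 (Ins.D false) ++
      (List.replicate 1 (Ins.U true) ++ (List.replicate m (Ins.U true) ++
      (List.replicate 1 (Ins.U false) ++ (List.replicate 1 (Ins.D true) ++
      (List.replicate m (Ins.D true) ++ (List.replicate 1 (Ins.D true) ++
      (List.replicate 1 (Ins.U false) ++ (List.replicate m (Ins.U true) ++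
      (List.replicate 1 (Ins.U true) ++ List.replicate k (Ins.U true))))))))))))) := by
    unfold hook
    simp only [List.replicate_one, List.append_assoc, List.cons_append, List.nil_append]
  have stD : ∀ (c j : ℕ) (s : Bool) (Q : Prog), er S c (List.replicate j (.D s) ++ Q) =
      List.replicate (cb S c j) (.D s) ++ er S (c + j) Q := by
    intro c j s Q
    rw [hL.2.2.2 (c + j) c (c + j) S _ _ (fn_repD _ _ _ _ le_rfl), er_repD]
  have stU : ∀ (c j : ℕ) (s : Bool) (Q : Prog), er S (c + j) (List.replicate j (.U s) ++ Q) =
      List.replicate (cb S c j) (.U s) ++ er S c Q := by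
    intro c j s Q
    rw [hL.2.2.2 0 (c + j) c S _ _ (fn_repU _ _ _ _), er_repU]
  have e1 : k + 1 + m = k + m + 1 := by ring
  rw [hh, stD, Nat.zero_add, stD, stD, e1, stD, stU, ← e1, stU, stU, stD, stD, e1, stD, stU, ← e1,
    stU, stU]
  have := er_repU S 0 k true
  rw [Nat.zero_add] at this
  rw [this]

theorem gHKE (hL : LOW) : HKE := by
  refine ⟨?_, ?_, ?_⟩
  · intro N k m h
    have stD : ∀ (c j : ℕ) (s : Bool) (Q : Prog), c + j ≤ N →
        fn N c (List.replicate j (.D s) ++ Q) = fn N (c + j) Q := by
      intro c j s Q hc
      rw [hL.1, fn_repD _ _ _ _ hc]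
      rfl
    have stU : ∀ (c j : ℕ) (s : Bool) (Q : Prog),
        fn N (c + j) (List.replicate j (.U s) ++ Q) = fn N c Q := by
      intro c j s Q
      rw [hL.1, fn_repU]
      rfl
    have hh : hook k m = List.replicate k (Ins.D true) ++ (List.replicate 1 (Ins.D false) ++
      (List.replicate m (Ins.D true) ++ (List.replicate 1 (Ins.D false) ++
      (List.replicate 1 (Ins.U true) ++ (List.replicate m (Ins.U true) ++
      (List.replicate 1 (Ins.U false) ++ (List.replicate 1 (Ins.D true) ++
      (List.replicate m (Ins.D true) ++ (List.replicate 1 (Ins.D true) ++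
      (List.replicate 1 (Ins.U false) ++ (List.replicate m (Ins.U true) ++
      (List.replicate 1 (Ins.U true) ++ List.replicate k (Ins.U true))))))))))))) := by
      unfold hook
      simp only [List.replicate_one, List.append_assoc, List.cons_append, List.nil_append]
    rw [hh, stD _ _ _ _ (by omega), Nat.zero_add, stD _ _ _ _ (by omega),
      stD _ _ _ _ (by omega), stD _ _ _ _ (by omega), stU, stU, stU, stD _ _ _ _ (by omega),
      stD _ _ _ _ (by omega), stD _ _ _ _ (by omega), stU, stU, stU]
    have := fn_repU N 0 k true
    rwa [Nat.zero_add] at this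
  · intro S N c c' P hS hc h
    induction P generalizing c with
    | nil => exact er_nil _ _
    | cons I P ih =>
      cases I with
      | D s =>
        rw [fn_D] at h
        split_ifs at h with h1
        rw [er_D, if_pos (hS c h1), ih _ h1 h]
      | U s =>
        cases c with
        | zero => exact absurd h (by rw [fn_U0]; simp)
        | succ c =>
          rw [fn_U] at h
          rw [er_U, ih c (by omega) h, if_pos (hS c (by omega))]
  · intro S k m h
    rw [er_hook hL]
    have h1 : ∀ c, cb S c 1 = if S c = true then 1 else 0 := by
      intro c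
      show (if S c = true then 1 else 0) + 0 = _
      rw [Nat.add_zero]
    by_cases h2 : S (k + m + 1) = true
    · have h3 : ¬ S k = true := fun h3 => h ⟨h3, h2⟩
      have h4 : cb S k 1 = 0 := by rw [h1, if_neg h3]
      rw [h4]
      simp only [List.replicate_zero, List.nil_append]
      have j1 := PR_UD (List.replicate (cb S 0 k) (Ins.D true) ++
        (List.replicate (cb S (k + 1) m) (Ins.D true) ++
        (List.replicate (cb S (k + m + 1) 1) (Ins.D false) ++
        (List.replicate (cb S (k + m + 1) 1) (Ins.U true)))))
        (List.replicate (cb S (k + m + 1) 1) (Ins.D true) ++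
        (List.replicate (cb S (k + m + 1) 1) (Ins.U false) ++
        (List.replicate (cb S (k + 1) m) (Ins.U true) ++
        List.replicate (cb S 0 k) (Ins.U true)))) true (cb S (k + 1) m)
      have j2 := PR_UD (List.replicate (cb S 0 k) (Ins.D true) ++
        (List.replicate (cb S (k + 1) m) (Ins.D true) ++
        (List.replicate (cb S (k + m + 1) 1) (Ins.D false))))
        ((List.replicate (cb S (k + m + 1) 1) (Ins.U false) ++
        (List.replicate (cb S (k + 1) m) (Ins.U true) ++
        List.replicate (cb S 0 k) (Ins.U true)))) true (cb S (k + m + 1) 1)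
      have j3 := PR_DU (List.replicate (cb S 0 k) (Ins.D true) ++
        (List.replicate (cb S (k + 1) m) (Ins.D true)))
        ((List.replicate (cb S (k + 1) m) (Ins.U true) ++
        List.replicate (cb S 0 k) (Ins.U true))) false (cb S (k + m + 1) 1)
      have j4 := PR_DU (List.replicate (cb S 0 k) (Ins.D true))
        (List.replicate (cb S 0 k) (Ins.U true)) true (cb S (k + 1) m)
      have j5 := PR_DU [] [] true (cb S 0 k)
      simp only [List.append_assoc, List.nil_append, List.append_nil] at j1 j2 j3 j4 j5 ⊢
      exact j1.trans (j2.trans (j3.trans (j4.trans j5)))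
    · have h4 : cb S (k + m + 1) 1 = 0 := by rw [h1, if_neg h2]
      rw [h4]
      simp only [List.replicate_zero, List.nil_append]
      have j1 := PR_DU (List.replicate (cb S 0 k) (Ins.D true) ++
        (List.replicate (cb S k 1) (Ins.D false)))
        (List.replicate (cb S k 1) (Ins.U false) ++ (List.replicate (cb S k 1) (Ins.D true) ++
        (List.replicate (cb S (k + 1) m) (Ins.D true) ++
        (List.replicate (cb S (k + 1) m) (Ins.U true) ++
        (List.replicate (cb S k 1) (Ins.U true) ++
        List.replicate (cb S 0 k) (Ins.U true)))))) true (cb S (k + 1) m)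
      have j2 := PR_DU (List.replicate (cb S 0 k) (Ins.D true))
        (List.replicate (cb S k 1) (Ins.D true) ++
        (List.replicate (cb S (k + 1) m) (Ins.D true) ++
        (List.replicate (cb S (k + 1) m) (Ins.U true) ++
        (List.replicate (cb S k 1) (Ins.U true) ++
        List.replicate (cb S 0 k) (Ins.U true))))) false (cb S k 1)
      have j3 := PR_DU (List.replicate (cb S 0 k) (Ins.D true) ++
        List.replicate (cb S k 1) (Ins.D true))
        (List.replicate (cb S k 1) (Ins.U true) ++
        List.replicate (cb S 0 k) (Ins.U true)) true (cb S (k + 1) m)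
      have j4 := PR_DU (List.replicate (cb S 0 k) (Ins.D true))
        (List.replicate (cb S 0 k) (Ins.U true)) true (cb S k 1)
      have j5 := PR_DU [] [] true (cb S 0 k)
      simp only [List.append_assoc, List.nil_append, List.append_nil] at j1 j2 j3 j4 j5 ⊢
      exact j1.trans (j2.trans (j3.trans (j4.trans j5)))

end Pool.Agent.Helper50.KP
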