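import Pool.Agent.Helper50.KP.Goals

/-!
# Project KP (MP_5a63b6_lc): goals, part F (colourings by a finite group)

A colouring of a diagram by a group `G`: a cup creates `g, g⁻¹`, a cap needs `g, g⁻¹`, a crossing
`X true` sends `g, h` to `g h g⁻¹, g` and `X false` sends `g, h` to `h, h⁻¹ g h`.  The number of
colourings is an invariant.
-/

set_option autoImplicit false

namespace Pool.Agent.Helper50.KP

/-! ## Definitions -/

section defs

variable {G : Type} [Group G]

/-- the two colours behind a crossing -/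
def xr : Bool → G → G → List G
  | true, g, h => [g * h * g⁻¹, g]
  | false, g, h => [h, h⁻¹ * g * h]

/-- The possible colours behind a piece, if the colours in front of it are given. -/
def loc [Fintype G] [DecidableEq G] : Kind → List G → Finset (List G)
  | .cup, _ => Finset.univ.image fun g => [g, g⁻¹]
  | .cap, [g, h] => if g * h = 1 then {[]} else ∅
  | .X s, [g, h] => {xr s g h}
  | _, _ => ∅

/-- The number of colourings of a word, if the colours on the left are `L` (and no strand is left on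
the right). -/
def cnt [Fintype G] [DecidableEq G] : Word → List G → ℕ
  | [], L => if L = [] then 1 else 0
  | e :: w, L => ∑ o ∈ loc e.1 ((L.drop e.2).take e.1.i),
      cnt w (L.take e.2 ++ o ++ L.drop (e.2 + e.1.i))

/-- The choices `c` (one for each cup) give a colouring of `w` with the colours `L` on the left. -/
def Good : Word → List G → List G → Prop
  | [], c, L => c = [] ∧ L = []
  | (.cup, k) :: w, c, L => ∃ g c', c = g :: c' ∧ Good w c' (L.take k ++ g :: g⁻¹ :: L.drop k)
  | (.cap, k) :: w, c, L => ∃ g R, L.drop k = g :: g⁻¹ :: R ∧ Good w c (L.take k ++ R)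
  | (.X s, k) :: w, c, L => ∃ g h R, L.drop k = g :: h :: R ∧ Good w c (L.take k ++ xr s g h ++ R)

/-- conjugation of a band -/
def cj (g : G) (b : G × G) : G × G := (g * b.1 * g⁻¹, g * b.2 * g⁻¹)

/-- value of a band -/
def vl (b : G × G) : G := b.1 * b.2

/-- the colours of a list of bands -/
def flat (B : List (G × G)) : List G := B.flatMap fun b => [b.1, b.2]

/-- The run of a program: `A` are the bands above `t` (the nearest first), `B` the bands below `t`. -/
def run : Prog → List (G × G) → G → List (G × G) → Option (List (G × G) × G × List (G × G))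
  | [], A, t, B => some (A, t, B)
  | .D true :: P, A, t, b :: B => run P (cj t b :: A) t B
  | .D false :: P, A, t, b :: B => run P (b :: A) ((vl b)⁻¹ * t * vl b) B
  | .U true :: P, b :: A, t, B => run P A t (cj t⁻¹ b :: B)
  | .U false :: P, b :: A, t, B => run P A (vl b * t * (vl b)⁻¹) (b :: B)
  | _, _, _, _ => none

/-- The bands of a colouring: `a` at the ends, `c v` for the wire `v`; the rows are the wires
`n - 1, ..., 0`, the last band is the extra band. -/
def bnd (a : G) (c : ℕ → G) : ℕ → List (G × G)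
  | 0 => [(a⁻¹, a)]
  | n + 1 => (a⁻¹, c n) :: ((c n)⁻¹, a) :: bnd a c n

/-- The choices of a colouring. -/
def chs (n : ℕ) (a : G) (c : ℕ → G) : List G :=
  a⁻¹ :: ((List.range n).flatMap fun v => [a, c v]) ++
    (List.range n).flatMap fun v => [a⁻¹, (c v)⁻¹]

end defs

/-! ## Invariance of the number of colourings -/

/-- **MVA**
Proof.  Write `L = A ++ g :: h :: k :: R` (or with one or two entries), `|A| = i` (`L.take i = A`,
`L.drop i = ..`).  The number of entries is large enough because `str l n`, `str r n` are not `none`.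
`zig`: `∑_x [x⁻¹ g = 1] cnt v (A ++ x :: R)` has the only nonzero term `x = g`.  `zag`: the entries
`g, x, x⁻¹`, condition `g x = 1`, left `x⁻¹ = g`.  `pcap`, `s = true`: left side: `g h g⁻¹, g, k`, condition `g k = 1`,
result `A ++ g h g⁻¹ :: R`; right side: `g, k, k⁻¹ h k`, condition `g k = 1`, result `k⁻¹ h k = g h g⁻¹`.
`s = false`: left: `h, h⁻¹ g h, k`, condition `h⁻¹ g h k = 1`, result `h`; right: `g, h k h⁻¹, h`, condition
`g h k h⁻¹ = 1` (equivalent), result `h`.  `pcup`, entry `g`, `s = true`: left: `g, x, x⁻¹` becomes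
`g x g⁻¹, g, x⁻¹`; right: `y, y⁻¹, g` becomes `y, g, g⁻¹ y⁻¹ g`: the same for `y = g x g⁻¹` (reindex the sum by this
bijection).  `s = false`: left `x, x⁻¹ g x, x⁻¹`; right `y, y⁻¹ g y, y⁻¹`.  (The sum over `loc .cup` is the sum over
`g : G`, because `g ↦ [g, g⁻¹]` is injective.) -/
def MVA : Prop := ∀ (G : Type) [Group G] [Fintype G] [DecidableEq G] (l r v : Word) (L : List G)
  (k k' : ℕ), (∃ i, (l = [(.cup, i), (.cap, i + 1)] ∧ r = []) ∨
      (l = [(.cup, i + 1), (.cap, i)] ∧ r = []) ∨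
      (∃ s, l = [(.X s, i), (.cap, i + 1)] ∧ r = [(.X (!s), i + 1), (.cap, i)]) ∨
      (∃ s, l = [(.cup, i + 1), (.X s, i)] ∧ r = [(.cup, i), (.X (!s), i + 1)])) →
  str l L.length = some k → str r L.length = some k' → cnt (l ++ v) L = cnt (r ++ v) L

/-- **MVB**
Proof.  `L = A ++ P ++ B ++ Q ++ R` with `|A| = i`, `|P| = K.i`, `|B| = d`, `|Q| = K'.i` (the length of `L` is at least
`i + K.i + d + K'.i` because `str` is not `none`).  Every `o ∈ loc K P` has length `K.o`.  Both sides are
`∑_{o ∈ loc K P} ∑_{o' ∈ loc K' Q} cnt v (A ++ o ++ B ++ o' ++ R)`, up to the order of the sums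
(`Finset.sum_comm`). -/
def MVB : Prop := ∀ (G : Type) [Group G] [Fintype G] [DecidableEq G] (K K' : Kind) (i d : ℕ)
  (v : Word) (L : List G) (k k' : ℕ),
  str [(K, i), (K', i + K.o + d)] L.length = some k →
  str [(K', i + K.i + d), (K, i)] L.length = some k' →
  cnt ([(K, i), (K', i + K.o + d)] ++ v) L = cnt ([(K', i + K.i + d), (K, i)] ++ v) L

/-- **MVC**
Proof.  `r1cup`: `x, x⁻¹` becomes `x⁻¹, x` in both cases; reindex by `x ↦ x⁻¹`.  `r1cap`: `g, h` becomes
`g h g⁻¹, g` or `h, h⁻¹ g h`, the product is `g h` in both cases.  `r2`: `g, h` is sent to itself.  `r3`: the six cases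
of `(s, t, u)`: (t,t,t), (f,f,f), (t,t,f), (t,f,f), (f,t,t), (f,f,t); in each case both sides send `g, h, k` to the same
triple (`simp [xr]; group`, or compare the three entries by `group`). -/
def MVC : Prop := ∀ (G : Type) [Group G] [Fintype G] [DecidableEq G] (l r v : Word) (L : List G)
  (k k' : ℕ), Rd l r → str l L.length = some k → str r L.length = some k' →
  cnt (l ++ v) L = cnt (r ++ v) L

/-- **STP** [STR, MVA, MVB, MVC]
Proof.  Context: if `str u n = some n'` and `cnt w L = cnt w' L` for all `L` of length `n'` then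
`cnt (u ++ w) L = cnt (u ++ w') L` for all `L` of length `n` (induction on `u`; all `o ∈ loc K P` have length `K.o`, if
`P` has length `K.i`).  `IsDia (u ++ l ++ v)` and `IsDia (u ++ r ++ v)` give (STR) `str u 0 = some n'` and that
`str l n'`, `str r n'` are not `none`.  Apply MVA, MVB, MVC (or their symmetric forms) to `l`, `r`. -/
def STP : Prop := ∀ (G : Type) [Group G] [Fintype G] [DecidableEq G] (w w' : Word), Step w w' →
  cnt (G := G) w [] = cnt (G := G) w' []

/-- **UKN** [STP]
Proof.  `cnt circle [] = ∑_g [g g⁻¹ = 1] = |G|`; induction on the chain. -/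
def UKN : Prop := ∀ (G : Type) [Group G] [Fintype G] [DecidableEq G] (w : Word), Unknot w →
  cnt (G := G) w [] = Fintype.card G

/-- **CRD**
Proof.  Induction on `w`, generalising `L` and `T`.  `[]`: all elements of `T` are `[]`, and `L = []` if `T` is
nonempty.  `cup`: for `g : G` let `T_g` be the set of the `c'` with `g :: c' ∈ T`; `|T| = ∑_g |T_g|` (every
element of `T` is of the form `g :: c'`) and `|T_g| ≤ cnt w (L.take k ++ g :: g⁻¹ :: L.drop k)` by induction; the sum
over `loc .cup` is the sum over `g`.  `cap`, `X s`: if `T` is empty there is nothing to prove; otherwise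
`L.drop k = g :: g⁻¹ :: R` (`g :: h :: R`), all elements of `T` are good for the rest (the list `R` is determined), and
`cnt` of the word is `cnt` of the rest. -/
def CRD : Prop := ∀ (G : Type) [Group G] [Fintype G] [DecidableEq G] (w : Word) (L : List G)
  (T : Finset (List G)), (∀ c ∈ T, Good w c L) → T.card ≤ cnt w L

/-! ## Runs of programs -/

/-- **ZIP**
Proof.  Induction on `P`, generalising `A`, `t`, `B`.  In front of the first instruction the colours are
`pre ++ flat A.reverse ++ t :: flat B ++ post`, `t` is at the place `p + 2 |A|`.  `D true`, `b = (u, v)`: `X true` at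
`t, u` gives `t u t⁻¹, t`, then `X true` at `t, v` gives `t v t⁻¹, t`.  `D false`: `X false` at `t, u`:
`u, u⁻¹ t u`; `X false` at `u⁻¹ t u, v`: `v, v⁻¹ u⁻¹ t u v`.  `U true`, `A = (u, v) :: A₁`, colours `.. u, v, t ..`:
`X false` at `v, t` gives `t, t⁻¹ v t`, then `X false` at `u, t` gives `t, t⁻¹ u t`.  `U false`: `X true` at `v, t`:
`v t v⁻¹, v`; `X true` at `u, v t v⁻¹`: `u v t v⁻¹ u⁻¹, u`.  (`(A.reverse)` gets or loses its last element.) -/
def ZIP : Prop := ∀ (G : Type) [Group G] (P : Prog) (A B A' B' : List (G × G)) (t t' : G)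
  (p : ℕ) (pre post ch : List G) (w : Word), pre.length = p → run P A t B = some (A', t', B') →
  Good w ch (pre ++ flat A'.reverse ++ t' :: (flat B' ++ post)) →
  Good (low p A.length P ++ w) ch (pre ++ flat A.reverse ++ t :: (flat B ++ post))

/-- **RIN**
Proof.  (1) Induction on `P`.  (2) Induction on `P` with (1): `inv (I :: P) = inv P ++ [I.inv]`; the instruction `I.inv`
reverses `I`: `cj t⁻¹ (cj t b) = b`, `vl b * ((vl b)⁻¹ * t * vl b) * (vl b)⁻¹ = t`, and the same the other way round. -/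
def RIN : Prop :=
  (∀ (G : Type) [Group G] (P Q : Prog) (A B : List (G × G)) (t : G),
    run (P ++ Q) A t B = (run P A t B).bind fun s => run Q s.1 s.2.1 s.2.2) ∧
  (∀ (G : Type) [Group G] (P : Prog) (A B A' B' : List (G × G)) (t t' : G),
    run P A t B = some (A', t', B') → run (inv P) A' t' B' = some (A, t, B))

/-- **HKF** [RIN]  (the effect of a hook)
Proof.  `run (replicate k (D true)) A t (B₁ ++ B) = some ((B₁.map (cj t)).reverse ++ A, t, B)` for `|B₁| = k`, and
`run (replicate k (U true)) (A₁ ++ A) t B = some (A, t, (A₁.map (cj t⁻¹)).reverse ++ B)` for `|A₁| = k`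
(induction on `k`).  Go through the hook with RIN (1): after `replicate k (D true)`: the bands of `B₁` are conjugated by `t`
(above); `D false`: `t` becomes `t₁`, `x` is unchanged; `replicate m (D true)`: `B₂` conjugated by `t₁`; `D false`: `t`
becomes `t₂`, `y` unchanged; `U true`: `y` becomes `cj t₂⁻¹ y`; `replicate m (U true)`: `B₂` conjugated by `t₂⁻¹`;
`U false`: `t` becomes `t₃`, `x` unchanged; `D true`: `x` becomes `cj t₃ x`; `B₂` conjugated by `t₃`; `D true`: `y` is now
`y' = cj t₃ (cj t₂⁻¹ y)`; `U false`: `t` becomes `vl y' t₃ (vl y')⁻¹ = t₄`, `y'` unchanged; `B₂` conjugated by `t₄⁻¹`;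
`U true`: `x` becomes `cj t₄⁻¹ (cj t₃ x)`; `B₁` conjugated by `t₄⁻¹`.  (`cj g (cj h b) = cj (g * h) b`,
`vl (cj g b) = g * vl b * g⁻¹`.) -/
def HKF : Prop := ∀ (G : Type) [Group G] (k m : ℕ) (B₁ B₂ B₃ : List (G × G)) (x y : G × G)
  (t t₁ t₂ t₃ t₄ : G), B₁.length = k → B₂.length = m →
  t₁ = (vl x)⁻¹ * t * vl x → t₂ = (vl y)⁻¹ * t₁ * vl y → t₃ = vl x * t₂ * (vl x)⁻¹ →
  t₄ = vl (cj (t₃ * t₂⁻¹) y) * t₃ * (vl (cj (t₃ * t₂⁻¹) y))⁻¹ →
  run (hook k m) [] t (B₁ ++ x :: (B₂ ++ y :: B₃)) =
    some ([], t₄, B₁.map (cj (t₄⁻¹ * t)) ++ cj (t₄⁻¹ * t₃) x ::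
      (B₂.map (cj (t₄⁻¹ * t₃ * t₂⁻¹ * t₁)) ++ cj (t₃ * t₂⁻¹) y :: B₃))

/-- **HKI** [HKF]  (a hook is not active if one of its bands has value 1)
Proof.  `B = B₁ ++ x :: (B₂ ++ y :: B₃)`, `|B₁| = k`, `|B₂| = m`.  If `vl x = 1`: `t₁ = t`, `t₃ = t₂ = (vl y)⁻¹ t vl y`,
`t₃ t₂⁻¹ = 1`, `t₄ = vl y t₂ (vl y)⁻¹ = t`; so only `x` changes (`cj _ x` has value `1`).  If `vl y = 1`: `t₂ = t₁`,
`t₃ = t`, `vl (cj _ y) = 1`, `t₄ = t₃ = t`, `t₄⁻¹ t = 1`, `t₄⁻¹ t₃ = 1`, `t₄⁻¹ t₃ t₂⁻¹ t₁ = 1`; only `y` changes, its value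
stays `1`.  (`cj 1 b = b`.) -/
def HKI : Prop := ∀ (G : Type) [Group G] (k m : ℕ) (B : List (G × G)) (t : G) (x y : G × G),
  B[k]? = some x → B[k + m + 1]? = some y → vl x = 1 ∨ vl y = 1 →
  ∃ B' : List (G × G), run (hook k m) [] t B = some ([], t, B') ∧ B'.length = B.length ∧
    ∀ (j : ℕ) (z : G × G), B[j]? = some z → ∃ z', B'[j]? = some z' ∧
      (vl z = 1 → vl z' = 1) ∧ (vl z ≠ 1 → z' = z)

/-- the permutation `2 → 3 → 4 → 2` -/
def pa : Equiv.Perm (Fin 5) := ⟨![0, 1, 3, 4, 2], ![0, 1, 4, 2, 3], by decide, by decide⟩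

/-- the permutation `0 → 1 → 2 → 0` -/
def pb : Equiv.Perm (Fin 5) := ⟨![1, 2, 0, 3, 4], ![2, 0, 1, 3, 4], by decide, by decide⟩

/-- **HKA** [HKF]  (an active hook)
Proof.  HKF for `x = y = (pa⁻¹, pb)`, `t = pa`: the values `t₁, .., t₄` are closed terms, `t₄ = pb` by `decide` (or compare
the values at `0, .., 4`).  All bands are conjugated, so the bands of value `1` keep the value `1`. -/
def HKA : Prop := ∀ (k m : ℕ) (B : List (Equiv.Perm (Fin 5) × Equiv.Perm (Fin 5))),
  B[k]? = some (pa⁻¹, pb) → B[k + m + 1]? = some (pa⁻¹, pb) →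
  ∃ B' : List (Equiv.Perm (Fin 5) × Equiv.Perm (Fin 5)),
    run (hook k m) [] pa B = some ([], pb, B') ∧ B'.length = B.length ∧
    ∀ (j : ℕ) (z : Equiv.Perm (Fin 5) × Equiv.Perm (Fin 5)), B[j]? = some z →
      ∃ z', B'[j]? = some z' ∧ (vl z = 1 → vl z' = 1)

/-- The number of the first band of the wire `x` (of `n` wires). -/
def bi (n x : ℕ) : ℕ := 2 * (n - 1 - x)

/-- **PGI** [HKI, RIN]  (a program without active hooks)
Proof.  Induction on the list `ps` (`prog n (e :: ps) = hook .. ++ prog n ps`, RIN (1)).  For `e = (x, y)` the hook is on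
the bands `k = bi n (max x y)` and `k + m + 1 = bi n (min x y)`, one of which has value `1` (HKI); the bands of value `1`
keep the value `1` and the others are unchanged, so the hypothesis holds for the rest of the list. -/
def PGI : Prop := ∀ (G : Type) [Group G] (n : ℕ) (ps : List (ℕ × ℕ)) (B : List (G × G)) (t : G),
  (∀ e ∈ ps, e.1 < n ∧ e.2 < n ∧ e.1 ≠ e.2) → 2 * n ≤ B.length →
  (∀ e ∈ ps, ∃ x y, B[bi n e.1]? = some x ∧ B[bi n e.2]? = some y ∧ (vl x = 1 ∨ vl y = 1)) →
  ∃ B' : List (G × G), run (prog n ps) [] t B = some ([], t, B') ∧ B'.length = B.length ∧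
    ∀ (j : ℕ) (z : G × G), B[j]? = some z → ∃ z', B'[j]? = some z' ∧
      (vl z = 1 → vl z' = 1) ∧ (vl z ≠ 1 → z' = z)

/-- **PGA** [HKA, PGI, RIN]  (a program with exactly one active hook)
Proof.  `ps = P₁ ++ e :: P₂`; `prog n ps = prog n P₁ ++ hook .. ++ prog n P₂`.  PGI for `P₁`: `t = pa` is unchanged and the
two bands of `e` are still `(pa⁻¹, pb)`, because their value `pa⁻¹ * pb` is not `1` (`decide`); bands of value `1` keep the
value.  HKA for `e`: `t` becomes `pb`.  PGI for `P₂` and `t = pb`. -/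
def PGA : Prop := ∀ (n : ℕ) (P₁ P₂ : List (ℕ × ℕ)) (e : ℕ × ℕ)
  (B : List (Equiv.Perm (Fin 5) × Equiv.Perm (Fin 5))),
  (∀ e' ∈ P₁ ++ e :: P₂, e'.1 < n ∧ e'.2 < n ∧ e'.1 ≠ e'.2) → 2 * n ≤ B.length →
  B[bi n e.1]? = some (pa⁻¹, pb) → B[bi n e.2]? = some (pa⁻¹, pb) →
  (∀ e' ∈ P₁ ++ P₂, ∃ x y, B[bi n e'.1]? = some x ∧ B[bi n e'.2]? = some y ∧
    (vl x = 1 ∨ vl y = 1)) →
  ∃ B', run (prog n (P₁ ++ e :: P₂)) [] pa B = some ([], pb, B')

/-! ## Colourings of the diagrams -/

/-- **GEN** [ZIP, RIN]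
Proof.  (a) `Good w ch (flat (bnd a c n))` implies
`Good (base n ++ w) (a⁻¹ :: (range n).flatMap (fun v => [a, c v]) ++ ch) []`: the outer cup with the choice `a⁻¹` gives
`[a⁻¹, a] = flat (bnd a c 0)`; if the colours are `flat (bnd a c n) = a⁻¹ :: X`, two cups at the place `1` with the choices
`a` and `c n` give `a⁻¹ :: c n :: (c n)⁻¹ :: a :: a⁻¹ :: X = flat (bnd a c (n+1))`
(`replicate (2(n+1)) = replicate (2n) ++ [_, _]`).  (b) Columns: let `fl = flat (bnd a c n)`, `|T| = 4 i`.
`Good w ch (T ++ (range' i j).flatMap (fun v => [a⁻¹, c v, (c v)⁻¹, a]) ++ fl)` implies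
`Good (cols i ((range' i j).map fun v => prog n (ps v)) ++ w) ((range' i j).flatMap (fun v => [a⁻¹, (c v)⁻¹]) ++ ch) (T ++ fl)`
(`i + j ≤ n`, induction on `j`).  One column `v = i`: the cup at `4i` with the choice `a⁻¹` gives `T ++ a⁻¹ :: a :: fl`;
`low (4i+1) 0 E` runs with `t = a`, `A = []`, `B = bnd a c n` to `t = c v`, `B'` (ZIP with `pre = T ++ [a⁻¹]`,
`post = []`); the cup at `4i+2` with the choice `(c v)⁻¹` gives `T ++ a⁻¹ :: c v :: (c v)⁻¹ :: c v :: flat B'`; `low (4i+3) 0 (inv E)`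
runs with `t = c v` back to `t = a`, `bnd a c n` (RIN (2), ZIP).  (c) `Good w ch L` implies
`Good (nest k ++ w) ch (T ++ (T.map (·⁻¹)).reverse ++ L)` for `|T| = k` (induction on `k`, the last element of `T`).  For
`T = (range n).flatMap (fun v => [a⁻¹, c v, (c v)⁻¹, a])` we have `(T.map (·⁻¹)).reverse ++ [a⁻¹, a] = flat (bnd a c n)`
(induction on `n`).  (d) The last cap: colours `[a⁻¹, a]`.  Note `dia` has `Es.length = n`. -/
def GEN : Prop := ∀ (G : Type) [Group G] (n : ℕ) (ps : ℕ → List (ℕ × ℕ)) (a : G) (c : ℕ → G),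
  (∀ v < n, ∃ B', run (prog n (ps v)) [] a (bnd a c n) = some ([], c v, B')) →
  Good (sys n ps) (chs n a c) []

/-- **BND**
Proof.  Induction on `n`: `bnd a c (n+1)` has two more bands in front, `bi (n+1) x = bi n x + 2` for `x < n`,
`bi (n+1) n = 0`. -/
def BND : Prop := ∀ (G : Type) [Group G] (n : ℕ) (a : G) (c : ℕ → G),
  (bnd a c n).length = 2 * n + 1 ∧ ∀ x < n, (bnd a c n)[bi n x]? = some (a⁻¹, c x)

/-- **FLS** [CRD, PGI, PGA, GEN, BND]  (a locked system has more colourings than the unknot)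
Proof.  `G = Perm (Fin 5)`, `|G| = 120`.  (a) For every `g : G` the choices `chs n g (fun _ => g)` are good: all bands have
value `g⁻¹ g = 1` (BND), so PGI gives `run (prog n (ps v)) [] g _ = some ([], g, _)`; GEN.  (b) Let `a = pa` and
`c v = pb` if `lk v`, `pa` otherwise.  The choices `chs n a c` are good: for `v < n` with `lk v = false` every pair of `v` has
a band with `lk = false`, i.e. `(pa⁻¹, pa)`, of value `1`: PGI, `t = pa = c v`.  If `lk v = true` use PGA.  (c) These 121
lists are different: the first entry of `chs n g _` is `g⁻¹`; `chs n pa c ≠ chs n pa (fun _ => pa)`, because the entries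
`c v` of a locked wire `v < n` are `pb ≠ pa` (the lists `flatMap (fun v => [a, c v])` are determined by, and
determine, the `c v`, `v < n`: induction, or compare the entries number `2v + 2`).  CRD with the set of these 121 lists. -/
def FLS : Prop := ∀ (n : ℕ) (ps : ℕ → List (ℕ × ℕ)) (lk : ℕ → Bool), Ok n ps → Cons n ps lk →
  (∃ v < n, lk v = true) → 121 ≤ cnt (G := Equiv.Perm (Fin 5)) (sys n ps) []

end Pool.Agent.Helper50.KP
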