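import Pool.Agent.Helper50.KP.Asm
import Pool.Agent.Helper50.KP.ERC
import Pool.Agent.Helper90.KP.PGE
import Pool.Agent.Helper89.KP.CNS
import Pool.Agent.Helper13.KP.UNT
import Pool.Agent.Helper50.KP.DIA
import Pool.Agent.Helper71.KP.KNT
import Pool.Agent.Helper63.KP.CRS
import Pool.Agent.Helper27.KP.CIO
import Pool.Agent.Helper69.KP.VAL
import Pool.Agent.Helper49.KP.CIT
import Pool.Agent.Helper98.KP.CIF
import Pool.Agent.Helper81.KP.MVA
import Pool.Agent.Helper62.KP.MVB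
import Pool.Agent.Helper4.KP.MVC
import Pool.Agent.Helper70.KP.STP
import Pool.Agent.Helper36.KP.UKN
import Pool.Agent.Helper59.KP.CRD
import Pool.Agent.Helper60.KP.ZIP
import Pool.Agent.Helper85.KP.RIN
import Pool.Agent.Helper32.KP.HKF
import Pool.Agent.Helper95.KP.HKI
import Pool.Agent.Helper25.KP.HKA
import Pool.Agent.Helper37.KP.PGI
import Pool.Agent.Helper7.KP.PGA
import Pool.Agent.Helper30.KP.GEN
import Pool.Agent.Helper31.KP.BND
import Pool.Agent.Helper54.KP.FLS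

/-!
# Project KP (MP_5a63b6_lc): the main theorem
-/

set_option autoImplicit false

namespace Pool.Agent.Helper50.KP

theorem aRED : RED := gRED gSTR
theorem aCOM : COM := gCOM aRED
theorem aPRL : PRL := gPRL aRED gLOW
theorem aINV : INV := gINV gLOW
theorem aSLD : SLD := gSLD aRED
theorem aCOL : COL := gCOL aRED aSLD aINV
theorem aBAS : BAS := gBAS aRED
theorem aREM : REM := gREM gSTR aRED aCOM aPRL aINV aCOL aBAS gSHF
theorem aHKE : HKE := gHKE gLOW
theorem aPGE : PGE := Helper90.KP.gPGE gLOW aPRL aHKE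
theorem aUNT : UNT := Helper13.KP.gUNT aREM gERC aHKE aPGE Helper89.KP.gCNS
theorem aDIA : DIA := oDIA gSTR aINV
theorem aKNT : KNT := Helper71.KP.gKNT gSTR gLOW aINV aDIA
theorem aCIT : CIT := Helper49.KP.gCIT Helper69.KP.gVAL
theorem aCIF : CIF := Helper98.KP.gCIF Helper69.KP.gVAL
theorem aSTP : STP := Helper70.KP.gSTP gSTR Helper81.KP.gMVA Helper62.KP.gMVB Helper4.KP.gMVC
theorem aUKN : UKN := Helper36.KP.gUKN aSTP
theorem aHKI : HKI := Helper95.KP.gHKI Helper32.KP.gHKF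
theorem aHKA : HKA := Helper25.KP.gHKA Helper32.KP.gHKF
theorem aPGI : PGI := Helper37.KP.gPGI aHKI Helper85.KP.gRIN
theorem aPGA : PGA := Helper7.KP.gPGA aHKA aPGI Helper85.KP.gRIN
theorem aGEN : GEN := Helper30.KP.gGEN Helper60.KP.gZIP Helper85.KP.gRIN
theorem aFLS : FLS := Helper54.KP.gFLS Helper59.KP.gCRD aPGI aPGA aGEN Helper31.KP.gBND

/-- The main theorem. -/
theorem final (m : ℕ) (hm : 0 < m) (C : ℕ → Gate) (hC : IsCircuit m C) (x : ℕ → Bool) :
    IsKnot (knot m C x) ∧ crossings (knot m C x) ≤ 1536 * m ^ 2 ∧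
    (val C x (m - 1) = true → BigonReducible (knot m C x)) ∧
    (val C x (m - 1) = false → ¬ Unknot (knot m C x)) :=
  main aRED aPGE aUNT aKNT Helper63.KP.gCRS Helper27.KP.gCIO aCIT aCIF aUKN aFLS m hm C hC x

end Pool.Agent.Helper50.KP
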