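import Pool.Agent.Helper50.KP.Defs

/-!
# Project KP (MP_5a63b6_lc): goals, part R (untying the diagrams of true circuits)

Every goal is a `Prop`, its proof is in its docstring; the goals in brackets may be used as
hypotheses.
-/

set_option autoImplicit false

namespace Pool.Agent.Helper50.KP

/-! ## Definitions -/

/-- Local reductions.  They do not change the number of strands. -/
def Lr (l r : Word) : Prop :=
  Pl l r ∨ (Pl r l ∧ l ≠ []) ∨ ∃ (i : ℕ) (s : Bool), l = [(.X s, i), (.X (!s), i)] ∧ r = []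

/-- Reductions in context. -/
def R : Word → Word → Prop := Relation.ReflTransGen fun w w' =>
  ∃ u v l r, Lr l r ∧ w = u ++ l ++ v ∧ w' = u ++ r ++ v

/-- All places moved by `k`. -/
def sh (k : ℕ) (w : Word) : Word := w.map fun e => (e.1, k + e.2)

/-- The number of bands above `t` after the program `P`, if there are `c` bands above `t` at the
beginning and `N` bands altogether; `none` if the program does not fit. -/
def fn (N : ℕ) : ℕ → Prog → Option ℕ
  | c, [] => some c
  | c, .D _ :: P => if c < N then fn N (c + 1) P else none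
  | c + 1, .U _ :: P => fn N c P
  | 0, .U _ :: _ => none

/-- The program without the crossings with the band number `z` (from above); `c` is the number of
bands above `t`. -/
def er1 (z : ℕ) : ℕ → Prog → Prog
  | _, [] => []
  | c, .D s :: P => if z = c then er1 z (c + 1) P else .D s :: er1 z (c + 1) P
  | c + 1, .U s :: P => if z = c then er1 z c P else .U s :: er1 z c P
  | 0, .U _ :: _ => []

/-- The number of bands above `t`, the band `z` not counted. -/
def nw (z c : ℕ) : ℕ := if z < c then c - 1 else c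

/-- The program with only the crossings with the bands in `S`. -/
def er (S : ℕ → Bool) : ℕ → Prog → Prog
  | _, [] => []
  | c, .D s :: P => if S c then .D s :: er S (c + 1) P else er S (c + 1) P
  | c + 1, .U s :: P => if S c then .U s :: er S c P else er S c P
  | 0, .U _ :: _ => []

/-- The number of bands of `S` above the band `c`. -/
def cn (S : ℕ → Bool) (c : ℕ) : ℕ := Nat.count (fun z => S z = true) c

/-- Cancellation of neighbouring inverse instructions. -/
def PR : Prog → Prog → Prop := Relation.ReflTransGen fun P Q =>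
  ∃ A B s, (P = A ++ [.D s, .U s] ++ B ∨ P = A ++ [.U s, .D s] ++ B) ∧ Q = A ++ B

/-- The bands of the wires in the list `l` (of `n` wires; the wire `v` is the row `n - 1 - v`). -/
def Sl (n : ℕ) (l : List ℕ) (z : ℕ) : Bool := decide (z < 2 * n ∧ n - 1 - z / 2 ∈ l)

/-- The pairs are pairs of different wires. -/
def Ok (n : ℕ) (ps : ℕ → List (ℕ × ℕ)) : Prop :=
  ∀ v < n, ∀ e ∈ ps v, e.1 < n ∧ e.2 < n ∧ e.1 ≠ e.2

/-- Every nonempty set of wires has an element none of whose pairs lies in the set. -/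
def Rel (n : ℕ) (ps : ℕ → List (ℕ × ℕ)) : Prop :=
  ∀ l : List ℕ, l ≠ [] → l.Sublist (List.range n) → ∃ v ∈ l, ∀ e ∈ ps v, e.1 ∉ l ∨ e.2 ∉ l

/-! ## Words and rewriting -/

/-- **STR**
Proof.  (1), (2), (3): induction on the word (generalise the number of strands).  (2): if
`e.2 + e.1.i ≤ n` then `n + d - e.1.i + e.1.o = (n - e.1.i + e.1.o) + d`.  (3): the same with
`k + n`. (4) clear. -/
def STR : Prop :=
  (∀ (u v : Word) (n : ℕ), str (u ++ v) n = (str u n).bind (str v)) ∧
  (∀ (w : Word) (a b d : ℕ), str w a = some b → str w (a + d) = some (b + d)) ∧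
  (∀ (w : Word) (a b k : ℕ), str w a = some b → str (sh k w) (k + a) = some (k + b)) ∧
  (∀ (k l : ℕ) (w : Word), sh k (sh l w) = sh (k + l) w)

/-- **RED** [STR]
Proof.  (1) Induction on the chain: put the context of `w`, `w'` around every step
(`List.append_assoc`).  (2) Every local reduction `Lr l r` satisfies: `str l n = some k` implies
`str r n = some k`.  `zig i`: `str [cup i, cap (i+1)] n = some n` if `i + 1 ≤ n` (and `none`
otherwise), `str [] n = some n`.  `zag i`: same.  `pcap`, `pcup`: both sides need `i + 3 ≤ n`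
(`i + 1 ≤ n`) and give `n - 2` (`n + 2`).  `comm K K' i d`: both sides need
`i + K.i + d + K'.i ≤ n` and give `n - K.i - K'.i + K.o + K'.o` (case distinction on `K`, `K'`; unfold
`str`, `Kind.i`, `Kind.o`, `split_ifs`, `omega`).  Bigon: both crossings need `i + 2 ≤ n` and give `n`.  So
(STR (1)) a reduction in a context `u ++ _ ++ v` of a link diagram gives a link diagram, and it is a
`Down` step (`Lr l r` implies the disjunction in `Down`).  Induction on the chain
(`Relation.ReflTransGen.head_induction_on` or `.tail`). -/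
def RED : Prop :=
  (∀ (u v w w' : Word), R w w' → R (u ++ w ++ v) (u ++ w' ++ v)) ∧
  (∀ w w' : Word, R w w' → IsDia w → IsDia w' ∧ Relation.ReflTransGen Down w w')

/-- **COM** [RED]  (a word and a word below it can be exchanged)
Proof.  First `w' = [(K', d)]`: the claim is `R (w ++ [(K', b + d)]) ((K', a + d) :: w)` and back.
Induction on `w`, generalising `a`.  `w = []`: `a = b`.  `w = (K, i) :: w₁`: `i + K.i ≤ a` and
`str w₁ (a - K.i + K.o) = some b`.  By induction `w₁ ++ [(K', b + d)]` reduces to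
`(K', a - K.i + K.o + d) :: w₁` and back.  With `d₁ = a - K.i - i + d` we have
`a - K.i + K.o + d = i + K.o + d₁` and `a + d = i + K.i + d₁`, and `Pl.comm K K' i d₁` (forward and
backward; both sides are nonempty) exchanges `(K, i), (K', i + K.o + d₁)` with
`(K', i + K.i + d₁), (K, i)`.  General `w'`: induction on `w'`, one piece at a time
(`w ++ sh b (e :: w'')`, `RED` (1) for contexts). -/
def COM : Prop := ∀ (w w' : Word) (a b : ℕ), str w a = some b →
  R (w ++ sh b w') (sh a w' ++ w) ∧ R (sh a w' ++ w) (w ++ sh b w')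

/-- **LOW**  (programs and concatenation)
Proof.  Induction on `A`, generalising `c`. -/
def LOW : Prop :=
  (∀ (N c : ℕ) (A B : Prog), fn N c (A ++ B) = (fn N c A).bind fun c' => fn N c' B) ∧
  (∀ (N c c' p : ℕ) (A B : Prog), fn N c A = some c' →
    low p c (A ++ B) = low p c A ++ low p c' B) ∧
  (∀ (N c c' z : ℕ) (A B : Prog), fn N c A = some c' →
    er1 z c (A ++ B) = er1 z c A ++ er1 z c' B) ∧
  (∀ (N c c' : ℕ) (S : ℕ → Bool) (A B : Prog), fn N c A = some c' →
    er S c (A ++ B) = er S c A ++ er S c' B)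

/-- **SLD** [RED]  (a cap on the band `z` slides to the left through a program)
Proof.  Induction on `P`, generalising `c`.  `P = []` is clear.  `P = I :: P'`, `c₁` = the number of
bands above `t` after `I`.  By induction (in a context) the cap slides through `low p c₁ P'`, which
becomes `low p (nw z c₁) (er1 z c₁ P')`.  It remains to let the cap `κ`, now at the place
`p + 2z + [c₁ ≤ z]`, slide through the two crossings of `I`.
*`I = D s`*, `c₁ = c + 1`, crossings `(X s, p+2c), (X s, p+2c+1)`.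
`z < c`: the cap is at `p + 2z` and the crossings at places `≥ p + 2z + 2`; `Pl.comm` twice (backward: in
`comm (cap) (X s) (p+2z) d` the right-hand side is `(X s, p+2z+2+d), (cap, p+2z)` and the left-hand side
`(cap, p+2z), (X s, p+2z+d)`) gives `(cap, p+2z), (X s, p+2(c-1)), (X s, p+2(c-1)+1)`, and
`nw z c = c - 1`, `nw z (c+1) = c`.
`z > c`: the cap is at `p + 2z + 1 ≥ p + 2c + 3`, `Pl.comm (X s) cap` twice (forward), `nw z c = c`.
`z = c`: the cap is at `p + 2c`.  `Pl.pcap (p+2c) (!s)` backward turns `(X s, p+2c+1), (cap, p+2c)` into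
`(X (!s), p+2c), (cap, p+2c+1)`; then `(X s, p+2c), (X (!s), p+2c)` is a bigon and disappears; the
cap stays at `p+2c+1 = p + 2z + [c ≤ z]`, the instruction is erased, `nw z c = c = nw z (c+1)`.
*`I = U s`*, `c = c₁ + 1`, crossings `(X (!s), p+2c₁+1), (X (!s), p+2c₁)`.  `z < c₁` and `z > c₁` as before.
`z = c₁`: the cap is at `p + 2c₁ + 1`; `Pl.pcap (p+2c₁) (!s)` forward turns
`(X (!s), p+2c₁), (cap, p+2c₁+1)` into `(X s, p+2c₁+1), (cap, p+2c₁)` (`!!s = s`), and
`(X (!s), p+2c₁+1), (X s, p+2c₁+1)` is a bigon; the cap stays at `p + 2c₁ = p + 2z + [c ≤ z]`. -/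
def SLD : Prop := ∀ (N z p c c' : ℕ) (P : Prog), fn N c P = some c' →
  R (low p c P ++ [(.cap, p + 2 * z + if c' ≤ z then 1 else 0)])
    ((.cap, p + 2 * z + if c ≤ z then 1 else 0) :: low p (nw z c) (er1 z c P))

/-- **PRL** [RED, LOW]
Proof.  (1) One cancellation: `P = A ++ [D s, U s] ++ B`, `fn N c A = some c₁`: `c₁ < N` and the
position after `A ++ [D s, U s]` is `c₁` again.  By LOW the word is
`low p c A ++ (X s, p+2c₁) :: (X s, p+2c₁+1) :: (X (!s), p+2c₁+1) :: (X (!s), p+2c₁) :: low p c₁ B`: two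
bigons.  `P = A ++ [U s, D s] ++ B`: `c₁ = c₂ + 1` and the four crossings are
`(X (!s), p+2c₂+1), (X (!s), p+2c₂), (X s, p+2c₂), (X s, p+2c₂+1)`: two bigons (`s = !!s`).
(2) `inv (A ++ [D s, U s] ++ B) = inv B ++ [D s, U s] ++ inv A` and the same for `[U s, D s]`.
(3) Contexts. -/
def PRL : Prop :=
  (∀ (N c c' : ℕ) (P Q : Prog), PR P Q → fn N c P = some c' →
    fn N c Q = some c' ∧ ∀ p : ℕ, R (low p c P) (low p c Q)) ∧
  (∀ P Q : Prog, PR P Q → PR (inv P) (inv Q)) ∧
  (∀ P P' Q Q' : Prog, PR P P' → PR Q Q' → PR (P ++ Q) (P' ++ Q'))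

/-- **INV** [LOW]
Proof.  (1) Induction on `P`, generalising `c`: `inv (I :: P) = inv P ++ [I.inv]`.  `I = D s`: `c < N`,
`c + 1 ≤ N`, so `fn N c' (inv P) = some (c+1)`, and `U s` leads from `c + 1` to `c`.  `I = U s`:
`c = c₁ + 1 ≤ N`; `fn N c' (inv P) = some c₁`, `c₁ < N`, `D s` leads from `c₁` to `c₁ + 1`.  Both `I` and
`I.inv` cross the same band, so they are erased together (LOW for `er1`).
(2) Induction on `P`: `nw z c < N` if `c < N`; `nw z (c+1) = nw z c + 1` if `z ≠ c` and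
`nw c (c+1) = c = nw c c`. -/
def INV : Prop :=
  (∀ (N c c' : ℕ) (P : Prog), c ≤ N → fn N c P = some c' →
    c' ≤ N ∧ fn N c' (inv P) = some c ∧ ∀ z, er1 z c' (inv P) = inv (er1 z c P)) ∧
  (∀ (N z c c' : ℕ) (P : Prog), fn N c P = some c' →
    fn N (nw z c) (er1 z c P) = some (nw z c'))

/-- **COL** [RED, SLD, INV]  (a cap slides to the left through the columns)
Proof.  One column, `fn N 0 E = some 0` (INV: also `fn N 0 (inv E) = some 0` and
`er1 z 0 (inv E) = inv (er1 z 0 E)`; `nw z 0 = 0`).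
`col i E = (cup, 4i) :: low (4i+1) 0 E ++ (cup, 4i+2) :: low (4i+3) 0 (inv E)`.  The cap at
`4(i+1) + 2z = (4i+3) + 2z + 1` slides through `low (4i+3) 0 (inv E)` (SLD with `p = 4i+3`, `c = c' = 0`) and
stays at `4i+4+2z`; `Pl.comm cup cap (4i+2) (2z)` moves it over the cup to the place `4i+2+2z`, which is
`(4i+1) + 2z + 1`; SLD with `p = 4i+1`; `Pl.comm cup cap (4i) (2z)` moves it to `4i + 2z`.
(2) Induction on the list: the last column first (or: `cols i (E :: Es) = col i E ++ cols (i+1) Es`, the cap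
slides through `cols (i+1) Es` to the place `4(i+1) + 2z` and then through `col i E`). -/
def COL : Prop := ∀ (z i : ℕ) (Es : List Prog), (∀ E ∈ Es, ∃ N, fn N 0 E = some 0) →
  R (cols i Es ++ [(.cap, 4 * (i + Es.length) + 2 * z)])
    ((.cap, 4 * i + 2 * z) :: cols i (Es.map (er1 z 0)))

/-- **BAS** [RED]
Proof.  Induction on `k`, generalising `z`.  Write `replicate (k+1) (cup, 1) = replicate k (cup, 1) ++ [(cup, 1)]`.
`z = 0`: `(cup, 1), (cap, 0)` disappears (`Pl.zag 0`).  `z = 1`: `(cup, 1), (cap, 2)` disappears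
(`Pl.zig 1`).  `z ≥ 2` (so `k ≥ 1`): `Pl.comm cup cap 1 (2z - 3)` turns `(cup, 1), (cap, 2z)` into
`(cap, 2(z-1)), (cup, 1)` (`1 + 2 + (2z-3) = 2z`, `1 + 0 + (2z-3) = 2z-2`); then the induction hypothesis
for `k - 1`, `z - 1 ≤ k` in the context `_ ++ [(cup, 1)]`. -/
def BAS : Prop := ∀ k z : ℕ, z ≤ k + 1 →
  R ((.cup, 0) :: List.replicate (k + 1) (.cup, 1) ++ [(.cap, 2 * z)])
    ((.cup, 0) :: List.replicate k (.cup, 1))

/-- **SHF** [STR]
Proof.  (1) `low (k + p) c P = sh k (low p c P)` (induction on `P`), so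
`col (i + j) E = sh (4 i) (col j E)`; induction on `Es`.  (2) Induction on `As`.  (3) Induction on `j`.  (4) Induction
on `k`. -/
def SHF : Prop :=
  (∀ (i j : ℕ) (Es : List Prog), cols (i + j) Es = sh (4 * i) (cols j Es)) ∧
  (∀ (i : ℕ) (As Bs : List Prog), cols i (As ++ Bs) = cols i As ++ cols (i + As.length) Bs) ∧
  (∀ i j : ℕ, nest (i + j) = sh i (nest j) ++ nest i) ∧
  (∀ k : ℕ, str (nest k) (2 * k) = some 0)

/-- **REM** [STR, RED, COM, PRL, INV, COL, BAS, SHF]  (removal of a wire with a trivial program)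
Proof.  `a = |As|`, `b = |Bs|`, `n = a + b + 1`, `F = cols 0 As`.  The word is
`base n ++ F ++ col a E ++ cols (a+1) Bs ++ nest (4n) ++ [cap 0]` (SHF).
1. `low (4a+1) 0 E` and `low (4a+3) 0 (inv E)` reduce to `[]` (PRL (1), (2), INV), so `col a E` reduces to
`κ = [(cup, 4a), (cup, 4a+2)]`.
2. `str κ (4a) = some (4a+4)`, `cols (a+1) Bs = sh (4a+4) (cols 0 Bs)` (SHF), so by COM
`κ ++ cols (a+1) Bs` reduces to `sh (4a) (cols 0 Bs) ++ κ = cols a Bs ++ κ`.
3. `nest (4n) = sh (4a+4) (nest (4b)) ++ nest (4a+4)`, by COM `κ ++ sh (4a+4) (nest (4b))` reduces to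
`sh (4a) (nest (4b)) ++ κ`.
4. `nest (4a+4) = (cap,4a+3) :: (cap,4a+2) :: (cap,4a+1) :: (cap,4a) :: nest (4a)`.  In
`(cup,4a), (cup,4a+2), (cap,4a+3), (cap,4a+2), (cap,4a+1), (cap,4a)` the pieces 2, 3 disappear
(`Pl.zig (4a+2)`), `(cup,4a), (cap,4a+2)` becomes `(cap,4a), (cup,4a)` (`Pl.comm cup cap (4a) 0`), and
`(cup,4a), (cap,4a+1)` disappears (`Pl.zig (4a)`); `(cap,4a), (cap,4a)` is left.
5. The word is now `base n ++ F ++ cols a Bs ++ sh (4a) (nest (4b)) ++ [(cap,4a), (cap,4a)] ++ nest (4a) ++ [cap 0]`.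
`str (sh (4a) (nest (4b))) (4a+8b) = some (4a)`, so by COM (with `w' = [(cap, 0), (cap, 0)]`) the two caps move
to the left of `sh (4a) (nest (4b))` and become `(cap, 4a+8b), (cap, 4a+8b)`; and
`sh (4a) (nest (4b)) ++ nest (4a) = nest (4a+4b)`.
6. `F ++ cols a Bs = cols 0 (As ++ Bs)`, `4a + 8b = 4 (a+b) + 2 (2b)`: COL with `i = 0`, `z = 2b` for the first cap,
and again for the second cap (the programs `er1 (2b) 0 P` satisfy the hypothesis by INV (2), `nw (2b) 0 = 0`).
The word is `base n ++ [(cap, 4b), (cap, 4b)] ++ cols 0 ((As ++ Bs).map ..) ++ nest (4(n-1)) ++ [cap 0]`.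
7. BAS twice (`z = 2b ≤ 2n`, `k + 1 = 2n`; `2b ≤ 2n - 1`, `k + 1 = 2n - 1`) turns
`base n ++ [(cap, 4b), (cap, 4b)]` into `base (n-1)`. -/
def REM : Prop := ∀ (As : List Prog) (E : Prog) (Bs : List Prog),
  (∀ E' ∈ As ++ E :: Bs, ∃ N, fn N 0 E' = some 0) → PR E [] →
  R (dia (As ++ E :: Bs))
    (dia ((As ++ Bs).map fun P => er1 (2 * Bs.length) 0 (er1 (2 * Bs.length) 0 P)))

/-! ## Erasing bands from programs -/

/-- **ERC**
Proof.  (1) Induction on `P`, generalising `c`.  For `S c = true` we have `cn S (c+1) = cn S c + 1`, and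
`cn S z = cn S c` iff `z = c` (`S z = S c = true`, `cn S` is strictly increasing there: `Nat.count`);
for `S c = false`, `cn S (c+1) = cn S c` and `c ≠ z`.  `P = D s :: P'`, `S c = true`: the left-hand side is
`er1 (cn S z) (cn S c) (D s :: er S (c+1) P')`, which is `er1 (cn S z) (cn S (c+1)) (er S (c+1) P')`, with
`D s` in front iff `c ≠ z`.  The other cases are similar; `P = U s :: P'` with `c = 0`: both sides are `[]`.
(2) Induction on `P`: if `S c = true` and `c < N` then `cn S c < cn S N`. -/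
def ERC : Prop :=
  (∀ (S : ℕ → Bool) (z c : ℕ) (P : Prog), S z = true →
    er1 (cn S z) (cn S c) (er S c P) = er (fun y => S y && decide (y ≠ z)) c P) ∧
  (∀ (S : ℕ → Bool) (N c c' : ℕ) (P : Prog), fn N c P = some c' →
    fn (cn S N) (cn S c) (er S c P) = some (cn S c'))

/-- **HKE** [LOW, PRL]
Proof.  (1) `fn`: compute (LOW; `fn N c (replicate k (D s)) = some (c + k)` if `c + k ≤ N`,
`fn N (c + k) (replicate k (U s)) = some c`).  (2) If `S z` for all `z < N` nothing is erased: induction on a program `P`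
with `fn N c P = some c'`, `c ≤ N`.  (3) `er S c (replicate j (D s))` is `replicate j' (D s)`, where `j'` is the number of
`z ∈ [c, c+j)` with `S z`, and `er S (c+j) (replicate j (U s))` is `replicate j' (U s)` with the same `j'`.  So
(LOW) `er S 0 (hook k m)` is
`D₊^k' [D₋] D₊^m' (D₋ U₊) U₊^m' [U₋] [D₊] D₊^m' (D₊ U₋) U₊^m' [U₊] U₊^k'`, where the instructions in `[ ]` are
present iff `S k` and those in `( )` iff `S (k+m+1)`.  Not `( )`: the inner cancellations `D₊^m' U₊^m'`,
then `[D₋][U₋]`, then `D₊^m' U₊^m'`, `[D₊][U₊]`, `D₊^k' U₊^k'`.  Not `[ ]` but `( )`: the word is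
`D₊^k' D₊^m' D₋ U₊ U₊^m' D₊^m' D₊ U₋ U₊^m' U₊^k'`; cancel `U₊^m' D₊^m'`, `U₊ D₊`, `D₋ U₋`, then the rest.
(`PR (replicate j (D s) ++ replicate j (U s)) []` and `PR (replicate j (U s) ++ replicate j (D s)) []` by
induction on `j`; PRL (3) for contexts.) -/
def HKE : Prop :=
  (∀ N k m : ℕ, k + m + 1 < N → fn N 0 (hook k m) = some 0) ∧
  (∀ (S : ℕ → Bool) (N c c' : ℕ) (P : Prog), (∀ z < N, S z = true) → c ≤ N →
    fn N c P = some c' → er S c P = P) ∧
  (∀ (S : ℕ → Bool) (k m : ℕ), ¬ (S k = true ∧ S (k + m + 1) = true) → PR (er S 0 (hook k m)) [])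

/-- **PGE** [LOW, PRL, HKE]
Proof.  `e = (x, y)`, `M = max x y`, `μ = min x y`, `μ < M < n`: `k = 2(n-1-M)`, `m = 2(M-μ)-1`,
`k + m + 1 = 2(n-1-μ) < 2n`.  So every hook satisfies HKE (1) with `N = 2n`; induction on the list `ps`
(`prog n (e :: ps) = hook .. ++ prog n ps`).  (2) `Sl n l k = true` iff `M ∈ l` (`k < 2n`, `k / 2 = n-1-M`,
`n-1-(n-1-M) = M`) and `Sl n l (k+m+1) = true` iff `μ ∈ l`; so HKE (3) applies to every hook, and LOW. -/
def PGE : Prop :=
  (∀ (n : ℕ) (ps : List (ℕ × ℕ)), (∀ e ∈ ps, e.1 < n ∧ e.2 < n ∧ e.1 ≠ e.2) →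
    fn (2 * n) 0 (prog n ps) = some 0) ∧
  (∀ (n : ℕ) (ps : List (ℕ × ℕ)) (l : List ℕ), (∀ e ∈ ps, e.1 < n ∧ e.2 < n ∧ e.1 ≠ e.2) →
    (∀ e ∈ ps, e.1 ∉ l ∨ e.2 ∉ l) → PR (er (Sl n l) 0 (prog n ps)) [])

/-- **CNS**
Proof.  `l = As ++ v :: Bs` is strictly increasing with elements `< n`, so `Bs` consists of the elements `> v`
of `l`.  (1) For `j ≤ n`: `cn (Sl n l) (2 j)` is twice the number of `i < j` with `n - 1 - i ∈ l` (both `2i` and
`2i+1` have `z / 2 = i`; induction on `j`).  For `j = n-1-v`: the `i < n-1-v` correspond to the numbers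
`u = n-1-i` with `v < u < n`.  So it is `2 #{u ∈ l : u > v} = 2 |Bs|`.  (2) Up to `2(n-1-v)` the two sets agree and
`2(n-1-v)` is not in the second one.  (3) For every `y`: `y ≠ 2(n-1-v), 2(n-1-v)+1` iff `y / 2 ≠ n-1-v`, i.e. (for `y < 2n`)
`n-1-y/2 ≠ v`; `v` occurs only once in `l`.  (4), (5): clear. -/
def CNS : Prop := ∀ (n v : ℕ) (As Bs : List ℕ), (As ++ v :: Bs).Sublist (List.range n) →
  cn (Sl n (As ++ v :: Bs)) (2 * (n - 1 - v)) = 2 * Bs.length ∧
  cn (fun y => Sl n (As ++ v :: Bs) y && decide (y ≠ 2 * (n - 1 - v))) (2 * (n - 1 - v) + 1) =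
    2 * Bs.length ∧
  (∀ y, ((Sl n (As ++ v :: Bs) y && decide (y ≠ 2 * (n - 1 - v))) &&
    decide (y ≠ 2 * (n - 1 - v) + 1)) = Sl n (As ++ Bs) y) ∧
  Sl n (As ++ v :: Bs) (2 * (n - 1 - v)) = true ∧
  Sl n (As ++ v :: Bs) (2 * (n - 1 - v) + 1) = true

/-- **UNT** [REM, ERC, HKE, PGE, CNS]  (untying)
Proof.  For a sublist `l` of `range n` let `Δ l = dia (l.map fun v => er (Sl n l) 0 (prog n (ps v)))`.  Claim:
`R (Δ l) circle`.  Induction on the length of `l`.  `Δ [] = dia [] = circle` (unfold).  `l ≠ []`: `Rel` gives `v ∈ l`,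
`l = As ++ v :: Bs` (`List.append_of_mem`).  All programs satisfy `fn N 0 _ = some 0` for some `N` (PGE (1), ERC (2),
`cn S 0 = 0`), the program of `v` cancels to `[]` (PGE (2)).  REM: `Δ l` reduces to the diagram of the programs
`er1 (2b) 0 (er1 (2b) 0 (er (Sl n l) 0 (prog n (ps u))))`, `u ∈ As ++ Bs`, `b = |Bs|`.  By ERC (1) twice, with CNS (1),
(2) (`cn S 0 = 0`), and CNS (3) (function extensionality) this is `er (Sl n (As ++ Bs)) 0 (prog n (ps u))`.
`As ++ Bs` is a sublist of `l`, so of `range n`.  Finally `sys n ps = Δ (range n)`: `Sl n (range n) z = true` for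
`z < 2n`, HKE (2) and PGE (1). -/
def UNT : Prop := ∀ (n : ℕ) (ps : ℕ → List (ℕ × ℕ)), Ok n ps → Rel n ps → R (sys n ps) circle

/-! ## Shape of the diagrams -/

/-- **DIA** [STR, LOW, INV]
Proof.  `str (low p c P) n = some n` if `fn N c P = some c'`, `c ≤ N` and `p + 2N + 1 ≤ n` (all places are
`≤ p + 2N - 1`; induction on `P`).  `n = |Es|`, `str (base n) 0 = some (4n + 2)`;
`str (col i E) (4i + 4n + 2) = some (4(i+1) + 4n + 2)` for `i < n`, `fn (2n) 0 E = some 0` (INV for `inv E`), so after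
the columns there are `8n + 2` strands; `str (nest (4n)) (8n + 2) = some 2` (`str (nest k) (2k + d) = some d`), and
`(cap, 0)`. -/
def DIA : Prop := ∀ Es : List Prog, (∀ E ∈ Es, fn (2 * Es.length) 0 E = some 0) → IsDia (dia Es)

/-- **KNT** [STR, LOW, INV, DIA]  (the diagrams are knot diagrams)
Proof.  (a) Programs do not change the labels, `t` only changes its place: if `fn N c P = some c'`, `c ≤ N`,
`p + 2N ≤ |M|` then `Lab (low p c P ++ w) ch (M.take (p+2c) ++ t :: M.drop (p+2c))` implies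
`Lab w ch (M.take (p+2c') ++ t :: M.drop (p+2c'))` (induction on `P`; `D s`: `t` is exchanged with the entries `p+2c`,
`p+2c+1` of `M`).  For `c = c' = 0` the list of labels is unchanged.  (b) Put `dbl [x₁, x₂, ..] = [x₁, x₁, x₂, x₂, ..]`.
`Lab (base n ++ w) ch []` implies `ch = r :: xs ++ ch'`, `|xs| = 2n`, and `Lab w ch' (r :: dbl xs.reverse ++ [r])`.
(c) `Lab (cols i Es ++ w) ch (T ++ L)`, `|T| = 4i`, `|L| = 4|Es₀| + 2` (`Es₀` = all programs) implies
`ch = ys ++ ch'`, `|ys| = 2|Es|`, `Lab w ch' (T ++ dbl ys ++ L)`.  (d) `Lab (nest k ++ w) ch (T ++ L)`, `|T| = k`,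
`k ≤ |L|` implies `L.take k = T.reverse` and `Lab w ch (L.drop k)`.  (e) So for the whole word
`T = dbl ys`, `L = r :: dbl xs' ++ [r]`, `xs' = xs.reverse`, `|ys| = |xs'| = 2n`, `L = (dbl ys).reverse ++ [u, u]`
(the last cap).  The last entry of `L` is `r`, so `u = r` and, dropping the last entry,
`dbl ys.reverse ++ [r] = r :: dbl xs'`.  Lemma: `dbl A ++ [r] = r :: dbl B`, `|A| = |B|` implies that all entries of
`A`, `B` are `r` (induction on `A`: `A = a :: A'`, `B = b :: B'`: `a = r`, `a = b`, and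
`dbl A' ++ [r] = b :: dbl B'`).  So all choices are `r`. -/
def KNT : Prop := ∀ Es : List Prog, (∀ E ∈ Es, fn (2 * Es.length) 0 E = some 0) → IsKnot (dia Es)

/-- **CRS**
Proof.  `crossings (u ++ v) = crossings u + crossings v`, `crossings (low p c P) ≤ 2 |P|`,
`|inv P| = |P|`, so `crossings (col i E) ≤ 4 |E|`, `crossings (base n) = crossings (nest k) = 0`.
`|hook k m| = 2k + 4m + 8`.  For a pair `(x, y)` of different wires `< n`, `M` the maximum, `μ` the minimum:
`k = 2(n-1-M)`, `m = 2(M-μ)-1`, `2k + 4m + 8 = 4(n-1-M) + 8(M-μ) + 4 ≤ 8n`.  Every wire has at most 3 pairs, so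
`|E| ≤ 24 n` and `crossings ≤ n · 96 n = 1536 m²` for `n = 4m`. -/
def CRS : Prop := ∀ (m : ℕ) (C : ℕ → Gate) (x : ℕ → Bool), IsCircuit m C →
  crossings (knot m C x) ≤ 1536 * m ^ 2

/-! ## Circuits -/

/-- **CIO**
Proof.  The wires of the gate `i < m` are `4i, .., 4i+3 < 4m`; `j, k < i < m`.  `4j+2 ≠ 4k+3`, `4j+2 ≠ 4k+1`,
`4j ≠ 4k+3`, `4j ≠ 4k+1` modulo `4`; `4m-2 ≠ 4m-1` are `< 4m` (`m ≥ 1` because `v < 4m`). -/
def CIO : Prop := ∀ (m : ℕ) (C : ℕ → Gate) (x : ℕ → Bool), IsCircuit m C →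
  Ok (4 * m) fun v => pairs m x (decide (v % 4 < 2)) (C (v / 4))

/-- **VAL**
Proof.  `vals C x i` has length `i` and its entry `j < i` is `val C x j` (induction on `i`). -/
def VAL : Prop :=
  (∀ (C : ℕ → Gate) (x : ℕ → Bool) (i l : ℕ), C i = .inp l → val C x i = x l) ∧
  (∀ (C : ℕ → Gate) (x : ℕ → Bool) (i j k : ℕ), C i = .nand j k → j < i → k < i →
    val C x i = !(val C x j && val C x k))

/-- **CIT** [VAL]  (true circuits)
Proof.  Let `l` be a nonempty sublist of `range (4m)` such that every `v ∈ l` has a pair with both entries in `l`.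
(A) Suppose `4m-2, 4m-1` are not both in `l`.  Then no wire of a gate `i` is in `l`, by strong induction on `i`: an
input gate has at most the pair `(4m-2, 4m-1)`; the pairs of a NAND gate consist of wires of earlier gates.  So `l` is
empty, contradiction.  (B) Suppose both are in `l`.  Strong induction on `i < m`: if `4i` or `4i+1` is in `l` then
`val i = true`; if `4i+2` or `4i+3` is in `l` then `val i = false`.  (`v % 4 < 2` says which kind.)  Input gate: the
pair exists only if `x l' = b`.  NAND `j k`, `b = true`: one of the pairs `(4j+2, 4k+3)`, `(4j+2, 4k+1)`, `(4j, 4k+3)` is in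
`l`, so by induction `val j = false` or `val k = false`.  `b = false`: `(4j, 4k+1)`: `val j = val k = true`.  Now
`4m-2 = 4(m-1)+2 ∈ l` gives `val (m-1) = false`, contradiction. -/
def CIT : Prop := ∀ (m : ℕ) (C : ℕ → Gate) (x : ℕ → Bool), 0 < m → IsCircuit m C →
  val C x (m - 1) = true → Rel (4 * m) fun v => pairs m x (decide (v % 4 < 2)) (C (v / 4))

/-- The wire `v` is locked iff exactly one of its pairs has two locked wires. -/
def Cons (n : ℕ) (ps : ℕ → List (ℕ × ℕ)) (lk : ℕ → Bool) : Prop := ∀ v < n,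
  (lk v = false ∧ ∀ e ∈ ps v, ¬ (lk e.1 = true ∧ lk e.2 = true)) ∨
  (lk v = true ∧ ∃ A e B, ps v = A ++ e :: B ∧ lk e.1 = true ∧ lk e.2 = true ∧
    ∀ e' ∈ A ++ B, ¬ (lk e'.1 = true ∧ lk e'.2 = true))

/-- **CIF** [VAL]  (false circuits)
Proof.  `lk v = val C x (v / 4)` if `v % 4 < 2` and `!val C x (v / 4)` otherwise.  `lk (4m-1) = true`,
`lk (4m-2) = true` as `val (m-1) = false`.  Let `v < 4m`, `i = v / 4`, `b = (v % 4 < 2)`.  `C i = inp l`: `val i = x l`, the
wire is locked iff `x l = b`, iff the pair `(4m-2, 4m-1)`, both locked, exists.  `C i = nand j k`, `b = false`: locked iff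
`val i = false` iff `val j = val k = true` iff both wires of the only pair `(4j, 4k+1)` are locked.  `b = true`: the pairs are
`(4j+2, 4k+3)`: locked iff `val j = val k = false`; `(4j+2, 4k+1)`: `val j = false`, `val k = true`; `(4j, 4k+3)`:
`val j = true`, `val k = false`.  Exactly one of them if `val i = true`, none if `val j = val k = true`. -/
def CIF : Prop := ∀ (m : ℕ) (C : ℕ → Gate) (x : ℕ → Bool), 0 < m → IsCircuit m C →
  val C x (m - 1) = false → ∃ lk : ℕ → Bool, lk (4 * m - 1) = true ∧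
    Cons (4 * m) (fun v => pairs m x (decide (v % 4 < 2)) (C (v / 4))) lk

end Pool.Agent.Helper50.KP
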