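import Pool.Agent.Helper50.KP.SLD

/-!
# Project KP, packets LOW, INV, PRL
-/

set_option autoImplicit false

namespace Pool.Agent.Helper50.KP

theorem er_nil (S : ℕ → Bool) (c : ℕ) : er S c [] = [] := by cases c <;> rfl

theorem er_D (S : ℕ → Bool) (c : ℕ) (s : Bool) (P : Prog) :
    er S c (.D s :: P) = if S c then .D s :: er S (c + 1) P else er S (c + 1) P := by
  cases c <;> rfl

theorem er_U (S : ℕ → Bool) (c : ℕ) (s : Bool) (P : Prog) :
    er S (c + 1) (.U s :: P) = if S c then .U s :: er S c P else er S c P := rfl

theorem fn_U0 (N : ℕ) (s : Bool) (P : Prog) : fn N 0 (.U s :: P) = none := rfl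

theorem gLOW : LOW := by
  refine ⟨?_, ?_, ?_, ?_⟩
  · intro N c A B
    induction A generalizing c with
    | nil => rw [fn_nil]; rfl
    | cons I A ih =>
      cases I with
      | D s =>
        rw [List.cons_append, fn_D, fn_D]
        split_ifs
        · exact ih _
        · rfl
      | U s =>
        cases c with
        | zero => rfl
        | succ c => exact ih c
  · intro N c c' p A B h
    induction A generalizing c with
    | nil =>
      rw [fn_nil, Option.some.injEq] at h
      rw [low_nil, h]
      rfl
    | cons I A ih =>
      cases I with
      | D s =>
        rw [fn_D] at h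
        split_ifs at h
        rw [List.cons_append, low_D, low_D, ih _ h]
        rfl
      | U s =>
        cases c with
        | zero => exact absurd h (by rw [fn_U0]; simp)
        | succ c =>
          rw [fn_U] at h
          rw [List.cons_append, low_U, low_U, ih _ h]
          rfl
  · intro N c c' z A B h
    induction A generalizing c with
    | nil =>
      rw [fn_nil, Option.some.injEq] at h
      rw [er1_nil, h]
      rfl
    | cons I A ih =>
      cases I with
      | D s =>
        rw [fn_D] at h
        split_ifs at h
        rw [List.cons_append, er1_D, er1_D, ih _ h]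
        split_ifs <;> rfl
      | U s =>
        cases c with
        | zero => exact absurd h (by rw [fn_U0]; simp)
        | succ c =>
          rw [fn_U] at h
          rw [List.cons_append, er1_U, er1_U, ih _ h]
          split_ifs <;> rfl
  · intro N c c' S A B h
    induction A generalizing c with
    | nil =>
      rw [fn_nil, Option.some.injEq] at h
      rw [er_nil, h]
      rfl
    | cons I A ih =>
      cases I with
      | D s =>
        rw [fn_D] at h
        split_ifs at h
        rw [List.cons_append, er_D, er_D, ih _ h]
        split_ifs <;> rfl
      | U s =>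
        cases c with
        | zero => exact absurd h (by rw [fn_U0]; simp)
        | succ c =>
          rw [fn_U] at h
          rw [List.cons_append, er_U, er_U, ih _ h]
          split_ifs <;> rfl

theorem inv_cons (I : Ins) (P : Prog) : inv (I :: P) = inv P ++ [I.inv] := by
  unfold inv
  rw [List.map_cons, List.reverse_cons]

theorem inv_append (P Q : Prog) : inv (P ++ Q) = inv Q ++ inv P := by
  unfold inv
  rw [List.map_append, List.reverse_append]

theorem gINV (hL : LOW) : INV := by
  refine ⟨?_, ?_⟩
  · intro N c c' P hc h
    induction P generalizing c with
    | nil =>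
      rw [fn_nil, Option.some.injEq] at h
      subst h
      refine ⟨hc, fn_nil _ _, fun z => ?_⟩
      show er1 z c [] = inv (er1 z c [])
      rw [er1_nil]
      rfl
    | cons I P ih =>
      cases I with
      | D s =>
        rw [fn_D] at h
        split_ifs at h with h1
        obtain ⟨i1, i2, i3⟩ := ih (c + 1) h1 h
        refine ⟨i1, ?_, fun z => ?_⟩
        · rw [inv_cons, hL.1, i2]
          show fn N (c + 1) [.U s] = some c
          rw [fn_U, fn_nil]
        · rw [inv_cons, hL.2.2.1 N c' (c + 1) z _ _ i2, i3 z, er1_D]
          show _ ++ er1 z (c + 1) [.U s] = _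
          rw [er1_U, er1_nil]
          split_ifs
          · rw [List.append_nil]
          · rw [inv_cons]; rfl
      | U s =>
        cases c with
        | zero => exact absurd h (by rw [fn_U0]; simp)
        | succ c =>
          rw [fn_U] at h
          obtain ⟨i1, i2, i3⟩ := ih c (by omega) h
          refine ⟨i1, ?_, fun z => ?_⟩
          · rw [inv_cons, hL.1, i2]
            show fn N c [.D s] = some (c + 1)
            rw [fn_D, if_pos (by omega), fn_nil]
          · rw [inv_cons, hL.2.2.1 N c' c z _ _ i2, i3 z, er1_U]
            show _ ++ er1 z c [.D s] = _
            rw [er1_D, er1_nil]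
            split_ifs
            · rw [List.append_nil]
            · rw [inv_cons]; rfl
  · intro N z c c' P h
    induction P generalizing c with
    | nil =>
      rw [fn_nil, Option.some.injEq] at h
      rw [er1_nil, fn_nil, h]
    | cons I P ih =>
      cases I with
      | D s =>
        rw [fn_D] at h
        split_ifs at h with h1
        have h2 := ih (c + 1) h
        rw [er1_D]
        by_cases hz : z = c
        · rw [if_pos hz, hz, ← nw_self, ← hz]
          rw [hz] at h2 ⊢
          exact h2
        · rw [if_neg hz, fn_D, if_pos, ← nw_succ z c hz]
          · exact h2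
          · unfold nw; split_ifs <;> omega
      | U s =>
        cases c with
        | zero => exact absurd h (by rw [fn_U0]; simp)
        | succ c =>
          rw [fn_U] at h
          have h2 := ih c h
          rw [er1_U]
          by_cases hz : z = c
          · rw [if_pos hz, hz, nw_self, ← hz]
            rw [hz] at h2 ⊢
            exact h2
          · rw [if_neg hz, nw_succ z c hz, fn_U]
            exact h2

theorem gPRL (hR : RED) (hL : LOW) : PRL := by
  have one : ∀ (N c c' : ℕ) (A B : Prog) (s : Bool),
      (fn N c (A ++ [.D s, .U s] ++ B) = some c' ∨ fn N c (A ++ [.U s, .D s] ++ B) = some c') →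
      fn N c (A ++ B) = some c' := by
    intro N c c' A B s h
    rcases h with h | h
    · rw [List.append_assoc, hL.1] at h
      rw [hL.1]
      cases hA : fn N c A with
      | none => rw [hA] at h; exact absurd h (by simp)
      | some c1 =>
        rw [hA] at h
        simp only [Option.bind_some] at h ⊢
        rw [List.cons_append, List.cons_append, fn_D] at h
        split_ifs at h
        exact h
    · rw [List.append_assoc, hL.1] at h
      rw [hL.1]
      cases hA : fn N c A with
      | none => rw [hA] at h; exact absurd h (by simp)
      | some c1 =>
        rw [hA] at h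
        simp only [Option.bind_some] at h ⊢
        cases c1 with
        | zero => exact absurd h (by rw [List.cons_append, fn_U0]; simp)
        | succ c2 =>
          rw [List.cons_append, List.cons_append, fn_U, fn_D] at h
          split_ifs at h
          exact h
  have two : ∀ (N c c' p : ℕ) (A B : Prog) (s : Bool),
      (fn N c (A ++ [.D s, .U s] ++ B) = some c' → R (low p c (A ++ [.D s, .U s] ++ B))
        (low p c (A ++ B))) ∧
      (fn N c (A ++ [.U s, .D s] ++ B) = some c' → R (low p c (A ++ [.U s, .D s] ++ B))
        (low p c (A ++ B))) := by
    intro N c c' p A B s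
    refine ⟨fun h => ?_, fun h => ?_⟩
    · rw [List.append_assoc, hL.1] at h
      cases hA : fn N c A with
      | none => rw [hA] at h; exact absurd h (by simp)
      | some c1 =>
        rw [List.append_assoc, hL.2.1 N c c1 p _ _ hA, hL.2.1 N c c1 p _ _ hA,
          List.cons_append, List.cons_append, low_D, low_U]
        have j1 := hR.1 (low p c A ++ [(.X s, p + 2 * c1)]) ((.X (!s), p + 2 * c1) :: low p c1 B)
          _ _ (bg s (p + 2 * c1 + 1))
        have j2 := hR.1 (low p c A) (low p c1 B) _ _ (bg s (p + 2 * c1))
        simp only [List.append_nil, List.nil_append, List.cons_append,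
          List.append_assoc] at j1 j2 ⊢
        exact j1.trans j2
    · rw [List.append_assoc, hL.1] at h
      cases hA : fn N c A with
      | none => rw [hA] at h; exact absurd h (by simp)
      | some c1 =>
        rw [hA] at h
        simp only [Option.bind_some] at h
        cases c1 with
        | zero => exact absurd h (by rw [List.cons_append, fn_U0]; simp)
        | succ c2 =>
          rw [List.append_assoc, hL.2.1 N c _ p _ _ hA, hL.2.1 N c _ p _ _ hA,
            List.cons_append, List.cons_append, low_U, low_D]
          have j1 := hR.1 (low p c A ++ [(.X (!s), p + 2 * c2 + 1)])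
            ((.X s, p + 2 * c2 + 1) :: low p (c2 + 1) B) _ _ (bg' s (p + 2 * c2))
          have j2 := hR.1 (low p c A) (low p (c2 + 1) B) _ _ (bg' s (p + 2 * c2 + 1))
          simp only [List.append_nil, List.nil_append, List.cons_append,
            List.append_assoc] at j1 j2 ⊢
          exact j1.trans j2
  refine ⟨?_, ?_, ?_⟩
  · intro N c c' P Q h hP
    induction h with
    | refl => exact ⟨hP, fun p => Relation.ReflTransGen.refl⟩
    | tail _ h ih =>
      obtain ⟨i1, i2⟩ := ih
      obtain ⟨A, B, s, h1, h2⟩ := h
      rw [h2]
      rcases h1 with h1 | h1
      · rw [h1] at i1 i2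
        exact ⟨one N c c' A B s (Or.inl i1), fun p => (i2 p).trans ((two N c c' p A B s).1 i1)⟩
      · rw [h1] at i1 i2
        exact ⟨one N c c' A B s (Or.inr i1), fun p => (i2 p).trans ((two N c c' p A B s).2 i1)⟩
  · intro P Q h
    induction h with
    | refl => exact Relation.ReflTransGen.refl
    | tail _ h ih =>
      refine Relation.ReflTransGen.tail ih ?_
      obtain ⟨A, B, s, h1, h2⟩ := h
      refine ⟨inv B, inv A, s, ?_, by rw [h2, inv_append]⟩
      rcases h1 with h1 | h1
      · left
        rw [h1, inv_append, inv_append, ← List.append_assoc]
        rfl
      · right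
        rw [h1, inv_append, inv_append, ← List.append_assoc]
        rfl
  · intro P P' Q Q' h1 h2
    have j1 : PR (P ++ Q) (P' ++ Q) := by
      induction h1 with
      | refl => exact Relation.ReflTransGen.refl
      | tail _ h ih =>
        refine Relation.ReflTransGen.tail ih ?_
        obtain ⟨A, B, s, h1, h2⟩ := h
        refine ⟨A, B ++ Q, s, ?_, by rw [h2, List.append_assoc]⟩
        rcases h1 with h1 | h1
        · left; rw [h1, List.append_assoc]
        · right; rw [h1, List.append_assoc]
    have j2 : PR (P' ++ Q) (P' ++ Q') := by
      induction h2 with
      | refl => exact Relation.ReflTransGen.refl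
      | tail _ h ih =>
        refine Relation.ReflTransGen.tail ih ?_
        obtain ⟨A, B, s, h1, h2⟩ := h
        refine ⟨P' ++ A, B, s, ?_, by rw [h2, List.append_assoc]⟩
        rcases h1 with h1 | h1
        · left; rw [h1]; simp only [List.append_assoc]
        · right; rw [h1]; simp only [List.append_assoc]
    exact j1.trans j2

end Pool.Agent.Helper50.KP
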