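import Pool.Agent.Helper50.KP.STR

/-!
# Project KP, packet RED
-/

set_option autoImplicit false

namespace Pool.Agent.Helper50.KP

theorem str_nil (n : ℕ) : str [] n = some n := rfl

theorem pl_str (l r : Word) (h : Pl l r) (n k : ℕ) : (str l n = some k → str r n = some k) ∧
    (l ≠ [] → r ≠ [] → str r n = some k → str l n = some k) := by
  cases h with
  | zig i =>
    simp only [str_cons, str_nil, Kind.i, Kind.o]
    refine ⟨?_, fun _ h => absurd rfl h⟩
    split_ifs
    · intro h
      rw [← h]
      congr 1
    · intro h; exact absurd h (by simp)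
    · intro h; exact absurd h (by simp)
  | zag i =>
    simp only [str_cons, str_nil, Kind.i, Kind.o]
    refine ⟨?_, fun _ h => absurd rfl h⟩
    split_ifs
    · intro h
      rw [← h]
      congr 1
    · intro h; exact absurd h (by simp)
    · intro h; exact absurd h (by simp)
  | pcap i s =>
    simp only [str_cons, str_nil, Kind.i, Kind.o]
    refine ⟨?_, fun _ _ => ?_⟩ <;>
    · split_ifs <;> first
        | (intro h; rw [← h]; done)
        | (intro h; rw [← h]; congr 1; omega)
        | (intro h; exfalso; omega)
        | (intro h; exact absurd h (by simp))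
  | pcup i s =>
    simp only [str_cons, str_nil, Kind.i, Kind.o]
    refine ⟨?_, fun _ _ => ?_⟩ <;>
    · split_ifs <;> first
        | (intro h; rw [← h]; done)
        | (intro h; rw [← h]; congr 1; omega)
        | (intro h; exfalso; omega)
        | (intro h; exact absurd h (by simp))
  | comm K K' i d =>
    simp only [str_cons, str_nil]
    refine ⟨?_, fun _ _ => ?_⟩ <;>
    · split_ifs <;> first
        | (intro h; rw [← h]; done)
        | (intro h; rw [← h]; congr 1; omega)
        | (intro h; exfalso; omega)
        | (intro h; exact absurd h (by simp))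

theorem lr_str (l r : Word) (h : Lr l r) (n k : ℕ) (hs : str l n = some k) :
    str r n = some k := by
  rcases h with h | ⟨h, h2⟩ | ⟨i, s, rfl, rfl⟩
  · exact (pl_str l r h n k).1 hs
  · by_cases hr : r = []
    · subst hr
      cases h
    · exact (pl_str r l h n k).2 hr h2 hs
  · simp only [str_cons, str_nil, Kind.i, Kind.o] at hs ⊢
    split_ifs at hs
    rw [← hs]
    congr 1
    omega

theorem gRED (hS : STR) : RED := by
  refine ⟨?_, ?_⟩
  · intro u v w w' h
    induction h with
    | refl => exact Relation.ReflTransGen.refl
    | tail _ h ih =>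
      refine Relation.ReflTransGen.tail ih ?_
      obtain ⟨u', v', l, r, h1, h2, h3⟩ := h
      refine ⟨u ++ u', v' ++ v, l, r, h1, ?_, ?_⟩
      · rw [h2]; simp only [List.append_assoc]
      · rw [h3]; simp only [List.append_assoc]
  · intro w w' h hw
    induction h with
    | refl => exact ⟨hw, Relation.ReflTransGen.refl⟩
    | tail _ h ih =>
      obtain ⟨h0, h1⟩ := ih
      obtain ⟨u', v', l, r, h2, h3, h4⟩ := h
      have hd : IsDia (u' ++ r ++ v') := by
        unfold IsDia at h0 ⊢
        rw [h3, hS.1, hS.1] at h0
        rw [hS.1, hS.1]
        cases hu : str u' 0 with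
        | none => rw [hu] at h0; simp at h0
        | some n =>
          rw [hu] at h0
          simp only [Option.bind_some] at h0 ⊢
          cases hl : str l n with
          | none => rw [hl] at h0; simp at h0
          | some k =>
            rw [hl] at h0
            rw [lr_str l r h2 n k hl]
            exact h0
      rw [← h4] at hd
      refine ⟨hd, Relation.ReflTransGen.tail h1 ⟨h0, hd, u', v', l, r, ?_, h3, h4⟩⟩
      rcases h2 with h2 | ⟨h2, _⟩ | h2
      · exact Or.inl h2
      · exact Or.inr (Or.inl h2)
      · exact Or.inr (Or.inr h2)

end Pool.Agent.Helper50.KP
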