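import Pool.Agent.Helper50.KP.COL

/-!
# Project KP, packet REM
-/

set_option autoImplicit false

namespace Pool.Agent.Helper50.KP

theorem zz (hR : RED) (i : ℕ) (Q : Word) :
    R ([(.cup, i), (.cup, i + 2)] ++
        ((.cap, i + 3) :: (.cap, i + 2) :: (.cap, i + 1) :: (.cap, i) :: Q))
      ([(.cap, i), (.cap, i)] ++ Q) := by
  have j1 := R_of_lr [(.cup, i + 2), (.cap, i + 3)] [] [(.cup, i)]
    ((.cap, i + 2) :: (.cap, i + 1) :: (.cap, i) :: Q) (Or.inl (Pl.zig (i + 2)))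
  have j2 := hR.1 [] ((.cap, i + 1) :: (.cap, i) :: Q) _ _ (uc i (i + 2) le_rfl)
  have j3 := R_of_lr [(.cup, i), (.cap, i + 1)] [] [(.cap, i)] ((.cap, i) :: Q)
    (Or.inl (Pl.zig i))
  rw [Nat.add_sub_cancel] at j2
  simp only [List.append_nil, List.nil_append, List.cons_append] at j1 j2 j3 ⊢
  exact j1.trans (j2.trans j3)

theorem gREM (hT : STR) (hR : RED) (hC : COM) (hP : PRL) (hI : INV) (hL : COL) (hB : BAS)
    (hS : SHF) : REM := by
  intro As E Bs hall hE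
  obtain ⟨N, hN⟩ := hall E (by simp)
  set a := As.length with ha
  set b := Bs.length with hb
  -- step 1
  have s1 : R (col a E) [(.cup, 4 * a), (.cup, 4 * a + 2)] := by
    have h1 := (hP.1 N 0 0 E [] hE hN).2 (4 * a + 1)
    have h2 := hP.2.1 E [] hE
    have h3 := (hI.1 N 0 0 E (Nat.zero_le _) hN).2.1
    have h4 := (hP.1 N 0 0 (inv E) (inv []) h2 h3).2 (4 * a + 3)
    rw [low_nil] at h1
    rw [show inv [] = [] from rfl, low_nil] at h4
    have j1 := hR.1 [(.cup, 4 * a)] ((.cup, 4 * a + 2) :: low (4 * a + 3) 0 (inv E)) _ _ h1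
    have j2 := hR.1 [(.cup, 4 * a), (.cup, 4 * a + 2)] [] _ _ h4
    unfold col
    simp only [List.append_nil, List.nil_append, List.cons_append] at j1 j2 ⊢
    exact j1.trans j2
  have hk : str [(.cup, 4 * a), (.cup, 4 * a + 2)] (4 * a) = some (4 * a + 4) := by
    simp only [str_cons, str_nil, Kind.i, Kind.o]
    rw [if_pos (by omega), if_pos (by omega)]
    congr 1
  -- step 2
  have s2 := (hC _ (cols 0 Bs) _ _ hk).1
  have e2 : cols (a + 1) Bs = sh (4 * a + 4) (cols 0 Bs) := by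
    have := hS.1 (a + 1) 0 Bs
    rw [Nat.add_zero, show 4 * (a + 1) = 4 * a + 4 by ring] at this
    exact this
  have e2' : cols a Bs = sh (4 * a) (cols 0 Bs) := by
    have := hS.1 a 0 Bs
    rwa [Nat.add_zero] at this
  rw [← e2, ← e2'] at s2
  -- step 3
  have s3 := (hC _ (nest (4 * b)) _ _ hk).1
  -- step 4
  have s4 := zz hR (4 * a) (nest (4 * a))
  have e4 : ((Kind.cap, 4 * a + 3) : Ev) :: (Kind.cap, 4 * a + 2) :: (Kind.cap, 4 * a + 1) ::
    (Kind.cap, 4 * a) :: nest (4 * a) = nest (4 * a + 4) := rfl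
  rw [e4] at s4
  -- step 5
  have h5 : str (sh (4 * a) (nest (4 * b))) (4 * a + 2 * (4 * b)) = some (4 * a + 0) :=
    hT.2.2.1 _ _ _ _ (hS.2.2.2 (4 * b))
  have s5 := (hC _ [(.cap, 0), (.cap, 0)] _ _ h5).1
  have e5 : ∀ k : ℕ, sh k [((Kind.cap, 0) : Ev), (Kind.cap, 0)] = [(Kind.cap, k), (Kind.cap, k)] := by
    intro k; rfl
  rw [e5, e5, Nat.add_zero] at s5
  -- step 6
  have hlen : (As ++ Bs).length = a + b := by rw [List.length_append]
  have s6 := hL (2 * b) 0 (As ++ Bs) (fun E' hE' => by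
    apply hall E'
    rcases List.mem_append.1 hE' with h | h
    · exact List.mem_append_left _ h
    · exact List.mem_append_right _ (List.mem_cons_of_mem _ h))
  have s6' := hL (2 * b) 0 ((As ++ Bs).map (er1 (2 * b) 0)) (fun E' hE' => by
    obtain ⟨P, hP1, rfl⟩ := List.mem_map.1 hE'
    obtain ⟨N', hN'⟩ := hall P (by
      rcases List.mem_append.1 hP1 with h | h
      · exact List.mem_append_left _ h
      · exact List.mem_append_right _ (List.mem_cons_of_mem _ h))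
    refine ⟨N', ?_⟩
    have := hI.2 N' (2 * b) 0 0 P hN'
    have hn : nw (2 * b) 0 = 0 := by unfold nw; split_ifs <;> omega
    rwa [hn] at this)
  rw [List.map_map] at s6'
  rw [List.length_map] at s6'
  rw [hlen] at s6 s6'
  have e6 : cols 0 (As ++ Bs) = cols 0 As ++ cols a Bs := by
    have := hS.2.1 0 As Bs
    rwa [Nat.zero_add] at this
  have e6' : 4 * (0 + (a + b)) + 2 * (2 * b) = 4 * a + 2 * (4 * b) := by ring
  have e6'' : 4 * 0 + 2 * (2 * b) = 2 * (2 * b) := by ring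
  rw [e6', e6''] at s6 s6'
  rw [e6] at s6
  -- step 7
  have s7 := hB (2 * (a + b) + 1) (2 * b) (by omega)
  have s7' := hB (2 * (a + b)) (2 * b) (by omega)
  -- the words
  have hF : (fun P => er1 (2 * b) 0 (er1 (2 * b) 0 P)) = er1 (2 * b) 0 ∘ er1 (2 * b) 0 := rfl
  have w0 : dia (As ++ E :: Bs) = (.cup, 0) :: List.replicate (2 * (a + b) + 1 + 1) (.cup, 1) ++
      (cols 0 As ++ (col a E ++ cols (a + 1) Bs)) ++
      (sh (4 * a + 4) (nest (4 * b)) ++ nest (4 * a + 4)) ++ [(.cap, 0)] := by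
    unfold dia base
    rw [hS.2.1, List.length_append, List.length_cons, ← ha, ← hb, Nat.zero_add]
    rw [show 4 * (a + (b + 1)) = 4 * a + 4 + 4 * b by ring, hS.2.2.1,
      show 2 * (a + (b + 1)) = 2 * (a + b) + 1 + 1 by ring]
    rfl
  have w1 : dia ((As ++ Bs).map fun P => er1 (2 * b) 0 (er1 (2 * b) 0 P)) =
      (.cup, 0) :: List.replicate (2 * (a + b)) (.cup, 1) ++
      cols 0 ((As ++ Bs).map (er1 (2 * b) 0 ∘ er1 (2 * b) 0)) ++
      (sh (4 * a) (nest (4 * b)) ++ nest (4 * a)) ++ [(.cap, 0)] := by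
    unfold dia base
    rw [List.length_map, hlen, ← hF, ← hS.2.2.1, show 4 * (a + b) = 4 * a + 4 * b by ring]
  rw [w0, w1]
  generalize List.map (er1 (2 * b) 0 ∘ er1 (2 * b) 0) (As ++ Bs) = V at s6'
  generalize List.map (er1 (2 * b) 0) (As ++ Bs) = V' at s6 s6'
  generalize cols 0 As = F at s6
  generalize cols (a + 1) Bs = G1 at s2
  generalize cols a Bs = G0 at s2 s6
  generalize col a E = K0 at s1
  generalize sh (4 * a + 4) (nest (4 * b)) = M1 at s3
  generalize sh (4 * a) (nest (4 * b)) = M0 at s3 s5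
  generalize nest (4 * a + 4) = T1 at s4
  generalize nest (4 * a) = T0 at s4
  generalize cols 0 V = CV at s6'
  generalize cols 0 V' = CV' at s6 s6'
  generalize List.replicate (2 * (a + b) + 1 + 1) ((Kind.cup, 1) : Ev) = R2 at s7
  generalize List.replicate (2 * (a + b) + 1) ((Kind.cup, 1) : Ev) = R1 at s7 s7'
  generalize List.replicate (2 * (a + b)) ((Kind.cup, 1) : Ev) = R0 at s7'
  have j1 := hR.1 ((.cup, 0) :: R2 ++ F) (G1 ++ (M1 ++ T1) ++ [(.cap, 0)]) _ _ s1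
  have j2 := hR.1 ((.cup, 0) :: R2 ++ F) ((M1 ++ T1) ++ [(.cap, 0)]) _ _ s2
  have j3 := hR.1 ((.cup, 0) :: R2 ++ F ++ G0) (T1 ++ [(.cap, 0)]) _ _ s3
  have j4 := hR.1 ((.cup, 0) :: R2 ++ F ++ G0 ++ M0) [(.cap, 0)] _ _ s4
  have j5 := hR.1 ((.cup, 0) :: R2 ++ F ++ G0) (T0 ++ [(.cap, 0)]) _ _ s5
  have j6 := hR.1 ((.cup, 0) :: R2) ((.cap, 4 * a + 2 * (4 * b)) :: M0 ++ T0 ++ [(.cap, 0)]) _ _ s6
  have j6' := hR.1 ((.cup, 0) :: R2 ++ [(.cap, 2 * (2 * b))]) (M0 ++ T0 ++ [(.cap, 0)]) _ _ s6'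
  have j7 := hR.1 [] ((.cap, 2 * (2 * b)) :: CV ++ M0 ++ T0 ++ [(.cap, 0)]) _ _ s7
  have j7' := hR.1 [] (CV ++ M0 ++ T0 ++ [(.cap, 0)]) _ _ s7'
  simp only [List.append_nil, List.nil_append, List.cons_append,
    List.append_assoc] at j1 j2 j3 j4 j5 j6 j6' j7 j7' ⊢
  exact j1.trans (j2.trans (j3.trans (j4.trans (j5.trans (j6.trans (j6'.trans (j7.trans j7')))))))

end Pool.Agent.Helper50.KP
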