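import Pool.Agent.Helper50.KP.COM

/-!
# Project KP, packet SLD
-/

set_option autoImplicit false

namespace Pool.Agent.Helper50.KP

theorem low_nil (p c : ℕ) : low p c [] = [] := by cases c <;> rfl

theorem low_D (p c : ℕ) (s : Bool) (P : Prog) :
    low p c (.D s :: P) = (.X s, p + 2 * c) :: (.X s, p + 2 * c + 1) :: low p (c + 1) P := by
  cases c <;> rfl

theorem low_U (p c : ℕ) (s : Bool) (P : Prog) :
    low p (c + 1) (.U s :: P) =
      (.X (!s), p + 2 * c + 1) :: (.X (!s), p + 2 * c) :: low p c P := rfl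

theorem fn_nil (N c : ℕ) : fn N c [] = some c := by cases c <;> rfl

theorem fn_D (N c : ℕ) (s : Bool) (P : Prog) :
    fn N c (.D s :: P) = if c < N then fn N (c + 1) P else none := by
  cases c <;> rfl

theorem fn_U (N c : ℕ) (s : Bool) (P : Prog) : fn N (c + 1) (.U s :: P) = fn N c P := rfl

theorem er1_nil (z c : ℕ) : er1 z c [] = [] := by cases c <;> rfl

theorem er1_D (z c : ℕ) (s : Bool) (P : Prog) :
    er1 z c (.D s :: P) = if z = c then er1 z (c + 1) P else .D s :: er1 z (c + 1) P := by
  cases c <;> rfl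

theorem er1_U (z c : ℕ) (s : Bool) (P : Prog) :
    er1 z (c + 1) (.U s :: P) = if z = c then er1 z c P else .U s :: er1 z c P := rfl

/-- crossing and cap below it -/
theorem xc (s : Bool) (i j : ℕ) (h : i + 2 ≤ j) :
    R [(.X s, i), (.cap, j)] [(.cap, j), (.X s, i)] := by
  obtain ⟨d, rfl⟩ := Nat.exists_eq_add_of_le h
  exact R_of_lr' _ _ (Or.inl (Pl.comm (.X s) .cap i d))

/-- crossing and cap above it -/
theorem cx (s : Bool) (i j : ℕ) (h : i ≤ j) :
    R [(.X s, j + 2), (.cap, i)] [(.cap, i), (.X s, j)] := by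
  obtain ⟨d, rfl⟩ := Nat.exists_eq_add_of_le h
  have := R_of_lr' _ _ (Or.inr (Or.inl ⟨Pl.comm .cap (.X s) i d, by simp⟩))
  have e : i + d + 2 = i + Kind.cap.i + d := by
    show i + d + 2 = i + 2 + d
    omega
  rw [e]
  exact this

theorem pc (s : Bool) (i : ℕ) :
    R [(.X s, i), (.cap, i + 1)] [(.X (!s), i + 1), (.cap, i)] :=
  R_of_lr' _ _ (Or.inl (Pl.pcap i s))

theorem pc' (s : Bool) (i : ℕ) :
    R [(.X s, i + 1), (.cap, i)] [(.X (!s), i), (.cap, i + 1)] := by
  have := R_of_lr' _ _ (Or.inr (Or.inl ⟨Pl.pcap i (!s), by simp⟩))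
  rwa [Bool.not_not] at this

theorem bg (s : Bool) (i : ℕ) : R [(.X s, i), (.X (!s), i)] [] :=
  R_of_lr' _ _ (Or.inr (Or.inr ⟨i, s, rfl, rfl⟩))

theorem bg' (s : Bool) (i : ℕ) : R [(.X (!s), i), (.X s, i)] [] := by
  have := bg (!s) i
  rwa [Bool.not_not] at this

/-- one instruction and a cap -/
theorem slD (hR : RED) (s : Bool) (p c z : ℕ) :
    R ([(.X s, p + 2 * c), (.X s, p + 2 * c + 1)] ++
        [(.cap, p + 2 * z + if c + 1 ≤ z then 1 else 0)])
      ((.cap, p + 2 * z + if c ≤ z then 1 else 0) ::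
        (if z = c then [] else [(.X s, p + 2 * nw z c), (.X s, p + 2 * nw z c + 1)])) := by
  unfold nw
  rcases lt_trichotomy z c with h | h | h
  · rw [if_neg (by omega), if_neg (by omega), if_neg (by omega), if_pos h, Nat.add_zero]
    obtain ⟨c', rfl⟩ : ∃ c', c = c' + 1 := ⟨c - 1, by omega⟩
    have h1 := cx s (p + 2 * z) (p + 2 * c' + 1) (by omega)
    have h2 := cx s (p + 2 * z) (p + 2 * c') (by omega)
    have j1 := hR.1 [(.X s, p + 2 * (c' + 1))] [] _ _ h1
    have j2 := hR.1 [] [(.X s, p + 2 * c' + 1)] _ _ h2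
    simp only [List.append_nil, List.nil_append, List.singleton_append,
      List.cons_append] at j1 j2 ⊢
    rw [show p + 2 * (c' + 1) = p + 2 * c' + 2 by ring] at j1 ⊢
    rw [show p + 2 * c' + 1 + 2 = p + 2 * c' + 2 + 1 by ring] at j1
    rw [show c' + 1 - 1 = c' by omega]
    exact j1.trans j2
  · subst h
    rw [if_neg (by omega), if_pos le_rfl, if_pos rfl, Nat.add_zero]
    have j1 := hR.1 [(.X s, p + 2 * z)] [] _ _ (pc' s (p + 2 * z))
    have j2 := hR.1 [] [(.cap, p + 2 * z + 1)] _ _ (bg s (p + 2 * z))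
    simp only [List.append_nil, List.nil_append, List.singleton_append,
      List.cons_append] at j1 j2 ⊢
    exact j1.trans j2
  · rw [if_pos (by omega), if_pos (by omega), if_neg (by omega), if_neg (by omega)]
    have h1 := xc s (p + 2 * c + 1) (p + 2 * z + 1) (by omega)
    have h2 := xc s (p + 2 * c) (p + 2 * z + 1) (by omega)
    have j1 := hR.1 [(.X s, p + 2 * c)] [] _ _ h1
    have j2 := hR.1 [] [(.X s, p + 2 * c + 1)] _ _ h2
    simp only [List.append_nil, List.nil_append, List.singleton_append,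
      List.cons_append] at j1 j2 ⊢
    exact j1.trans j2

theorem slU (hR : RED) (s : Bool) (p c z : ℕ) :
    R ([(.X (!s), p + 2 * c + 1), (.X (!s), p + 2 * c)] ++
        [(.cap, p + 2 * z + if c ≤ z then 1 else 0)])
      ((.cap, p + 2 * z + if c + 1 ≤ z then 1 else 0) ::
        (if z = c then [] else [(.X (!s), p + 2 * nw z c + 1), (.X (!s), p + 2 * nw z c)])) := by
  unfold nw
  rcases lt_trichotomy z c with h | h | h
  · rw [if_neg (by omega), if_neg (by omega), if_neg (by omega), if_pos h, Nat.add_zero]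
    obtain ⟨c', rfl⟩ : ∃ c', c = c' + 1 := ⟨c - 1, by omega⟩
    have h1 := cx (!s) (p + 2 * z) (p + 2 * c') (by omega)
    have h2 := cx (!s) (p + 2 * z) (p + 2 * c' + 1) (by omega)
    have j1 := hR.1 [(.X (!s), p + 2 * (c' + 1) + 1)] [] _ _ h1
    have j2 := hR.1 [] [(.X (!s), p + 2 * c')] _ _ h2
    simp only [List.append_nil, List.nil_append, List.singleton_append,
      List.cons_append] at j1 j2 ⊢
    rw [show p + 2 * (c' + 1) = p + 2 * c' + 2 by ring] at j1 ⊢
    rw [show p + 2 * c' + 1 + 2 = p + 2 * c' + 2 + 1 by ring] at j2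
    rw [show c' + 1 - 1 = c' by omega]
    exact j1.trans j2
  · subst h
    rw [if_pos le_rfl, if_neg (by omega), if_pos rfl, Nat.add_zero]
    have h1 := pc (!s) (p + 2 * z)
    rw [Bool.not_not] at h1
    have j1 := hR.1 [(.X (!s), p + 2 * z + 1)] [] _ _ h1
    have j2 := hR.1 [] [(.cap, p + 2 * z)] _ _ (bg' s (p + 2 * z + 1))
    simp only [List.append_nil, List.nil_append, List.singleton_append,
      List.cons_append] at j1 j2 ⊢
    exact j1.trans j2
  · rw [if_pos (by omega), if_pos (by omega), if_neg (by omega), if_neg (by omega)]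
    have h1 := xc (!s) (p + 2 * c) (p + 2 * z + 1) (by omega)
    have h2 := xc (!s) (p + 2 * c + 1) (p + 2 * z + 1) (by omega)
    have j1 := hR.1 [(.X (!s), p + 2 * c + 1)] [] _ _ h1
    have j2 := hR.1 [] [(.X (!s), p + 2 * c)] _ _ h2
    simp only [List.append_nil, List.nil_append, List.singleton_append,
      List.cons_append] at j1 j2 ⊢
    exact j1.trans j2

theorem nw_succ (z c : ℕ) (h : z ≠ c) : nw z (c + 1) = nw z c + 1 := by
  unfold nw
  split_ifs <;> omega

theorem nw_self (c : ℕ) : nw c (c + 1) = nw c c := by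
  unfold nw
  split_ifs <;> omega

theorem gSLD (hR : RED) : SLD := by
  intro N z p c c' P
  induction P generalizing c with
  | nil =>
    intro h
    rw [fn_nil, Option.some.injEq] at h
    subst h
    rw [low_nil, er1_nil, low_nil]
    exact Relation.ReflTransGen.refl
  | cons I P ih =>
    intro h
    cases I with
    | D s =>
      rw [fn_D] at h
      split_ifs at h with h1
      have h2 := ih (c + 1) h
      rw [low_D, er1_D]
      have j1 := hR.1 [(.X s, p + 2 * c), (.X s, p + 2 * c + 1)] [] _ _ h2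
      have j2 := hR.1 [] (low p (nw z (c + 1)) (er1 z (c + 1) P)) _ _ (slD hR s p c z)
      simp only [List.append_nil, List.nil_append, List.singleton_append,
        List.cons_append, List.append_assoc] at j1 j2 ⊢
      refine j1.trans (j2.trans ?_)
      by_cases hz : z = c
      · rw [if_pos hz, if_pos hz, hz, nw_self]
        exact Relation.ReflTransGen.refl
      · rw [if_neg hz, if_neg hz, nw_succ z c hz, low_D]
        exact Relation.ReflTransGen.refl
    | U s =>
      cases c with
      | zero => exact absurd h (by simp [fn])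
      | succ c =>
        rw [fn_U] at h
        have h2 := ih c h
        rw [low_U, er1_U]
        have j1 := hR.1 [(.X (!s), p + 2 * c + 1), (.X (!s), p + 2 * c)] [] _ _ h2
        have j2 := hR.1 [] (low p (nw z c) (er1 z c P)) _ _ (slU hR s p c z)
        simp only [List.append_nil, List.nil_append, List.singleton_append,
          List.cons_append, List.append_assoc] at j1 j2 ⊢
        refine j1.trans (j2.trans ?_)
        by_cases hz : z = c
        · rw [if_pos hz, if_pos hz, hz, nw_self]
          exact Relation.ReflTransGen.refl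
        · rw [if_neg hz, if_neg hz, nw_succ z c hz, low_U]
          exact Relation.ReflTransGen.refl

end Pool.Agent.Helper50.KP
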