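import Pool.Agent.Helper50.KP.Final

/-!
# Project KP (MP_5a63b6_lc): diagrams with a fixed shadow

`hook2 a k m` is the hook of `t` on the bands `k` and `k + m + 1` if `a = true`, and passes over everything
if `a = false`.  So the shadow of the diagram `knot2 m C x` depends only on the circuit.
-/

set_option autoImplicit false

namespace Pool.Agent.Helper50.KP

/-- The hook of a wire on the bands number `k` and `k + m + 1`: a commutator if `a = true`; if
`a = false` the wire is over at all crossings. -/
def hook2 (a : Bool) (k m : ℕ) : Prog :=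
  List.replicate k (Ins.D true) ++ [Ins.D (!a)] ++ List.replicate m (Ins.D true) ++
    [Ins.D (!a), Ins.U true] ++ List.replicate m (Ins.U true) ++ [Ins.U (!a), Ins.D true] ++
    List.replicate m (Ins.D true) ++ [Ins.D true, Ins.U (!a)] ++ List.replicate m (Ins.U true) ++
    [Ins.U true] ++ List.replicate k (Ins.U true)

/-- The hooks of the wires of a gate: a hook on the first bands of two wires and a bit. -/
def hooks2 (m : ℕ) (x : ℕ → Bool) (b : Bool) : Gate → List (Bool × ℕ × ℕ)
  | .inp l => [(x l == b, 4 * m - 2, 4 * m - 1)]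
  | .nand j k =>
    if b then [(true, 4 * j + 2, 4 * k + 3), (true, 4 * j + 2, 4 * k + 1), (true, 4 * j, 4 * k + 3)]
    else [(true, 4 * j, 4 * k + 1)]

/-- The program of the wire `v` of the circuit `C` with `m` gates and input `x`. -/
def wire2 (m : ℕ) (C : ℕ → Gate) (x : ℕ → Bool) (v : ℕ) : Prog :=
  ((hooks2 m x (decide (v % 4 < 2)) (C (v / 4))).map fun e =>
    hook2 e.1 (2 * (4 * m - 1 - max e.2.1 e.2.2))
      (2 * (max e.2.1 e.2.2 - min e.2.1 e.2.2) - 1)).flatten

/-- The knot diagram of the circuit `C` with `m` gates and input `x`. -/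
def knot2 (m : ℕ) (C : ℕ → Gate) (x : ℕ → Bool) : Word :=
  dia ((List.range (4 * m)).map (wire2 m C x))

/-- The shadow of a diagram: the signs of the crossings are forgotten. -/
def shadow (w : Word) : Word := w.map fun e => (match e.1 with
  | .cup => Kind.cup
  | .cap => Kind.cap
  | .X _ => Kind.X true, e.2)

theorem hook2_true (k m : ℕ) : hook2 true k m = hook k m := rfl

theorem hook2_false (k m : ℕ) : PR (hook2 false k m) [] := by
  have e : hook2 false k m = List.replicate k (Ins.D true) ++
      (List.replicate (m + 2) (Ins.D true) ++ (List.replicate (m + 2) (Ins.U true) ++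
      (List.replicate (m + 2) (Ins.D true) ++ (List.replicate (m + 2) (Ins.U true) ++
      List.replicate k (Ins.U true))))) := by
    have e1 : ∀ I : Ins, List.replicate (m + 2) I = I :: (List.replicate m I ++ [I]) := by
      intro I
      rw [List.replicate_succ, List.replicate_succ']
    unfold hook2
    rw [e1, e1]
    simp only [Bool.not_false, List.append_assoc, List.cons_append, List.nil_append]
  rw [e]
  have j1 := PR_DU (List.replicate k (Ins.D true)) (List.replicate (m + 2) (Ins.D true) ++
    (List.replicate (m + 2) (Ins.U true) ++ List.replicate k (Ins.U true))) true (m + 2)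
  have j2 := PR_DU (List.replicate k (Ins.D true)) (List.replicate k (Ins.U true)) true (m + 2)
  have j3 := PR_DU [] [] true k
  simp only [List.nil_append, List.append_nil] at j3
  exact j1.trans (j2.trans j3)

/-- the program of the wire in the diagram `knot` -/
def wire1 (m : ℕ) (C : ℕ → Gate) (x : ℕ → Bool) (v : ℕ) : Prog :=
  prog (4 * m) (pairs m x (decide (v % 4 < 2)) (C (v / 4)))

theorem hooks2_inp (m : ℕ) (x : ℕ → Bool) (b : Bool) (l : ℕ) :
    hooks2 m x b (.inp l) = [(x l == b, 4 * m - 2, 4 * m - 1)] := rfl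

theorem pairs_inp (m : ℕ) (x : ℕ → Bool) (b : Bool) (l : ℕ) :
    pairs m x b (.inp l) = if x l = b then [(4 * m - 2, 4 * m - 1)] else [] := rfl

theorem wire_PR (m : ℕ) (C : ℕ → Gate) (x : ℕ → Bool) (v : ℕ) :
    PR (wire2 m C x v) (wire1 m C x v) := by
  unfold wire2 wire1 prog
  generalize decide (v % 4 < 2) = b
  cases C (v / 4) with
  | inp l =>
    rw [hooks2_inp, pairs_inp]
    by_cases h : x l = b
    · rw [if_pos h]
      have h2 : (x l == b) = true := by rw [h]; exact beq_self_eq_true b
      rw [h2]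
      exact Relation.ReflTransGen.refl
    · rw [if_neg h]
      have h2 : (x l == b) = false := beq_eq_false_iff_ne.2 h
      rw [h2]
      simp only [List.map_cons, List.map_nil, List.flatten_cons, List.flatten_nil, List.append_nil]
      exact hook2_false _ _
  | nand j k =>
    cases b
    · exact Relation.ReflTransGen.refl
    · exact Relation.ReflTransGen.refl

/-! ### shapes -/

/-- shape of an instruction -/
def shp : Ins → Ins
  | .D _ => .D true
  | .U _ => .U true

theorem fn_shp (N : ℕ) (P : Prog) : ∀ c, fn N c (P.map shp) = fn N c P := by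
  induction P with
  | nil => intro c; rfl
  | cons I P ih =>
    intro c
    cases I with
    | D s =>
      show fn N c (.D true :: P.map shp) = _
      rw [fn_D, fn_D, ih]
    | U s =>
      cases c with
      | zero => rfl
      | succ c =>
        show fn N (c + 1) (.U true :: P.map shp) = _
        rw [fn_U, fn_U, ih]

theorem hook2_shp (a : Bool) (k m : ℕ) : (hook2 a k m).map shp = (hook2 true k m).map shp := by
  unfold hook2
  simp only [List.map_append, List.map_replicate, List.map_cons, List.map_nil, shp]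

/-- the hooks of a gate, without the bits -/
def hooks0 (m : ℕ) (b : Bool) : Gate → List (ℕ × ℕ)
  | .inp _ => [(4 * m - 2, 4 * m - 1)]
  | .nand j k =>
    if b then [(4 * j + 2, 4 * k + 3), (4 * j + 2, 4 * k + 1), (4 * j, 4 * k + 3)]
    else [(4 * j, 4 * k + 1)]

theorem hooks2_snd (m : ℕ) (x : ℕ → Bool) (b : Bool) (g : Gate) :
    (hooks2 m x b g).map (fun e => e.2) = hooks0 m b g := by
  cases g with
  | inp l => rfl
  | nand j k => cases b <;> rfl

theorem wire_shp (m : ℕ) (C : ℕ → Gate) (x : ℕ → Bool) (v : ℕ) :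
    (wire2 m C x v).map shp = (prog (4 * m) (hooks0 m (decide (v % 4 < 2)) (C (v / 4)))).map shp := by
  unfold wire2 prog
  rw [← hooks2_snd m x]
  induction hooks2 m x (decide (v % 4 < 2)) (C (v / 4)) with
  | nil => rfl
  | cons e L ih =>
    rw [List.map_cons, List.flatten_cons, List.map_append, ih, List.map_cons, List.map_cons,
      List.flatten_cons, List.map_append]
    congr 1
    rw [hook2_shp, hook2_true]

theorem hooks0_ok (m : ℕ) (C : ℕ → Gate) (hC : IsCircuit m C) (v : ℕ) (hv : v < 4 * m) :
    ∀ e ∈ hooks0 m (decide (v % 4 < 2)) (C (v / 4)), e.1 < 4 * m ∧ e.2 < 4 * m ∧ e.1 ≠ e.2 := by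
  generalize decide (v % 4 < 2) = b
  have hi : v / 4 < m := by omega
  cases hg : C (v / 4) with
  | inp l =>
    intro e he
    simp only [hooks0, List.mem_singleton] at he
    subst he
    refine ⟨?_, ?_, ?_⟩ <;> dsimp only <;> omega
  | nand j k =>
    obtain ⟨h1, h2⟩ := hC (v / 4) hi j k hg
    intro e he
    cases b
    · simp only [hooks0, Bool.false_eq_true, if_false, List.mem_singleton] at he
      subst he
      refine ⟨?_, ?_, ?_⟩ <;> dsimp only <;> omega
    · simp only [hooks0, if_true, List.mem_cons, List.not_mem_nil, or_false] at he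
      rcases he with rfl | rfl | rfl <;>
      · refine ⟨?_, ?_, ?_⟩ <;> dsimp only <;> omega

theorem wire_fn (m : ℕ) (C : ℕ → Gate) (hC : IsCircuit m C) (x : ℕ → Bool) (v : ℕ)
    (hv : v < 4 * m) : fn (2 * (4 * m)) 0 (wire2 m C x v) = some 0 := by
  rw [← fn_shp, wire_shp, fn_shp]
  exact aPGE.1 _ _ (hooks0_ok m C hC v hv)

theorem knot2_isKnot (m : ℕ) (C : ℕ → Gate) (hC : IsCircuit m C) (x : ℕ → Bool) :
    IsKnot (knot2 m C x) := by
  refine aKNT _ ?_
  intro E hE
  rw [List.length_map, List.length_range]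
  obtain ⟨v, hv, rfl⟩ := List.mem_map.1 hE
  exact wire_fn m C hC x v (List.mem_range.1 hv)

/-! ### reduction to the diagram without passive hooks -/

theorem R_col (i N : ℕ) (E F : Prog) (h : PR E F) (hE : fn N 0 E = some 0) :
    R (col i E) (col i F) := by
  have h1 := (aPRL.1 N 0 0 E F h hE).2 (4 * i + 1)
  have h3 := (aINV.1 N 0 0 E (Nat.zero_le _) hE).2.1
  have h4 := (aPRL.1 N 0 0 (inv E) (inv F) (aPRL.2.1 E F h) h3).2 (4 * i + 3)
  have j1 := aRED.1 [(.cup, 4 * i)] ((.cup, 4 * i + 2) :: low (4 * i + 3) 0 (inv E)) _ _ h1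
  have j2 := aRED.1 ((.cup, 4 * i) :: low (4 * i + 1) 0 F ++ [(.cup, 4 * i + 2)]) [] _ _ h4
  unfold col
  simp only [List.append_nil, List.nil_append, List.cons_append, List.append_assoc] at j1 j2 ⊢
  exact j1.trans j2

theorem R_cols (N : ℕ) (f g : ℕ → Prog) (l : List ℕ)
    (h : ∀ v ∈ l, PR (f v) (g v) ∧ fn N 0 (f v) = some 0) :
    ∀ i, R (cols i (l.map f)) (cols i (l.map g)) := by
  induction l with
  | nil => intro i; exact Relation.ReflTransGen.refl
  | cons v l ih =>
    intro i
    obtain ⟨h1, h2⟩ := h v List.mem_cons_self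
    have j1 := aRED.1 [] (cols (i + 1) (l.map f)) _ _ (R_col i N _ _ h1 h2)
    have j2 := aRED.1 (col i (g v)) [] _ _ (ih (fun u hu => h u (List.mem_cons_of_mem _ hu)) (i + 1))
    show R (col i (f v) ++ cols (i + 1) (l.map f)) (col i (g v) ++ cols (i + 1) (l.map g))
    simp only [List.append_nil, List.nil_append] at j1 j2
    exact j1.trans j2

theorem R_knot (m : ℕ) (C : ℕ → Gate) (hC : IsCircuit m C) (x : ℕ → Bool) :
    R (knot2 m C x) (knot m C x) := by
  have h := R_cols (2 * (4 * m)) (wire2 m C x) (wire1 m C x) (List.range (4 * m))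
    (fun v hv => ⟨wire_PR m C x v, wire_fn m C hC x v (List.mem_range.1 hv)⟩) 0
  have j := aRED.1 (base (4 * m)) (nest (4 * (4 * m)) ++ [(.cap, 0)]) _ _ h
  show R (dia ((List.range (4 * m)).map (wire2 m C x))) (dia ((List.range (4 * m)).map (wire1 m C x)))
  unfold dia
  rw [List.length_map, List.length_map, List.length_range]
  simp only [List.append_assoc] at j ⊢
  exact j

theorem step_symm (w w' : Word) (h : Step w w') : Step w' w := by
  obtain ⟨h1, h2, u, v, l, r, h3, h4, h5⟩ := h
  refine ⟨h2, h1, u, v, r, l, ?_, h5, h4⟩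
  rcases h3 with h3 | h3 | h3 | h3
  · exact Or.inr (Or.inl h3)
  · exact Or.inl h3
  · exact Or.inr (Or.inr (Or.inr h3))
  · exact Or.inr (Or.inr (Or.inl h3))

theorem down_step (w w' : Word) (h : Down w w') : Step w w' := by
  obtain ⟨h1, h2, u, v, l, r, h3, h4, h5⟩ := h
  refine ⟨h1, h2, u, v, l, r, ?_, h4, h5⟩
  rcases h3 with h3 | h3 | ⟨i, s, rfl, rfl⟩
  · exact Or.inl h3
  · exact Or.inr (Or.inl h3)
  · exact Or.inr (Or.inr (Or.inl (Rd.r2 i s)))

theorem down_rev (w w' : Word) (h : Relation.ReflTransGen Down w w') :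
    Relation.ReflTransGen Step w' w := by
  induction h with
  | refl => exact Relation.ReflTransGen.refl
  | tail _ h ih => exact Relation.ReflTransGen.head (step_symm _ _ (down_step _ _ h)) ih

theorem knot2_main (m : ℕ) (hm : 0 < m) (C : ℕ → Gate) (hC : IsCircuit m C) (x : ℕ → Bool) :
    (Unknot (knot2 m C x) ↔ val C x (m - 1) = true) ∧
    (BigonReducible (knot2 m C x) ↔ val C x (m - 1) = true) := by
  obtain ⟨h1, h2, h3, h4⟩ := final m hm C hC x
  have hd := (knot2_isKnot m C hC x).1
  obtain ⟨-, hD⟩ := aRED.2 _ _ (R_knot m C hC x) hd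
  have a1 : val C x (m - 1) = true → BigonReducible (knot2 m C x) := fun h => hD.trans (h3 h)
  have a2 : Unknot (knot2 m C x) → val C x (m - 1) = true := by
    intro h
    by_contra hv
    refine h4 (by simpa using hv) ?_
    exact (down_rev _ _ hD).trans h
  exact ⟨⟨a2, fun h => unknot_of_bigon _ (a1 h)⟩, ⟨fun h => a2 (unknot_of_bigon _ h), a1⟩⟩

end Pool.Agent.Helper50.KP
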