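import Pool.Agent.Helper50.KP.Shadow

/-!
# Project KP (MP_5a63b6_lc): crossings, shadow and letters of the diagrams with a fixed shadow
-/

set_option autoImplicit false

namespace Pool.Agent.Helper50.KP

/-! ### the number of crossings -/

theorem cr_append (u v : Word) : crossings (u ++ v) = crossings u + crossings v := by
  unfold crossings
  rw [List.countP_append]

theorem cr_X (s : Bool) (i : ℕ) (w : Word) : crossings ((.X s, i) :: w) = crossings w + 1 := by
  unfold crossings
  rw [List.countP_cons]
  rfl

theorem cr_cup (i : ℕ) (w : Word) : crossings ((.cup, i) :: w) = crossings w := by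
  unfold crossings
  rw [List.countP_cons]
  rfl

theorem cr_cap (i : ℕ) (w : Word) : crossings ((.cap, i) :: w) = crossings w := by
  unfold crossings
  rw [List.countP_cons]
  rfl

theorem cr_nil : crossings [] = 0 := rfl

theorem cr_low (p : ℕ) (P : Prog) : ∀ c, crossings (low p c P) ≤ 2 * P.length := by
  induction P with
  | nil => intro c; rw [low_nil, cr_nil]; exact Nat.zero_le _
  | cons I P ih =>
    intro c
    rw [List.length_cons]
    cases I with
    | D s =>
      rw [low_D, cr_X, cr_X]
      have := ih (c + 1)
      omega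
    | U s =>
      cases c with
      | zero => show crossings [] ≤ _; rw [cr_nil]; exact Nat.zero_le _
      | succ c =>
        rw [low_U, cr_X, cr_X]
        have := ih c
        omega

theorem cr_nest (k : ℕ) : crossings (nest k) = 0 := by
  induction k with
  | zero => rfl
  | succ k ih =>
    show crossings ((Kind.cap, k) :: nest k) = 0
    rw [cr_cap, ih]

theorem cr_base (n : ℕ) : crossings (base n) = 0 := by
  unfold base
  rw [cr_cup]
  induction 2 * n with
  | zero => rfl
  | succ k ih => rw [List.replicate_succ, cr_cup, ih]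

theorem inv_length (P : Prog) : (inv P).length = P.length := by
  unfold inv
  rw [List.length_reverse, List.length_map]

theorem cr_col (i : ℕ) (E : Prog) : crossings (col i E) ≤ 4 * E.length := by
  unfold col
  rw [List.cons_append, cr_cup, cr_append, cr_cup]
  have h1 := cr_low (4 * i + 1) E 0
  have h2 := cr_low (4 * i + 3) (inv E) 0
  rw [inv_length] at h2
  omega

theorem cr_cols (L : ℕ) (Es : List Prog) (h : ∀ E ∈ Es, E.length ≤ L) :
    ∀ i, crossings (cols i Es) ≤ Es.length * (4 * L) := by
  induction Es with
  | nil => intro i; exact Nat.zero_le _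
  | cons E Es ih =>
    intro i
    show crossings (col i E ++ cols (i + 1) Es) ≤ _
    rw [cr_append, List.length_cons, Nat.succ_mul]
    have h1 := cr_col i E
    have h2 := ih (fun E' hE' => h E' (List.mem_cons_of_mem _ hE')) (i + 1)
    have h3 := h E List.mem_cons_self
    omega

theorem hook_length (k m : ℕ) : (hook k m).length = 2 * k + 4 * m + 8 := by
  unfold hook
  simp only [List.length_append, List.length_replicate, List.length_cons, List.length_nil]
  ring

theorem prog_length (n : ℕ) (ps : List (ℕ × ℕ)) (h : ∀ e ∈ ps, e.1 < n ∧ e.2 < n ∧ e.1 ≠ e.2) :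
    (prog n ps).length ≤ ps.length * (8 * n) := by
  induction ps with
  | nil => exact Nat.zero_le _
  | cons e ps ih =>
    have h1 := ih (fun e' he' => h e' (List.mem_cons_of_mem _ he'))
    obtain ⟨a1, a2, a3⟩ := h e List.mem_cons_self
    have h2 : prog n (e :: ps) = hook (2 * (n - 1 - max e.1 e.2))
      (2 * (max e.1 e.2 - min e.1 e.2) - 1) ++ prog n ps := rfl
    rw [h2, List.length_append, hook_length, List.length_cons, Nat.add_mul, Nat.one_mul]
    rcases lt_or_gt_of_ne a3 with h3 | h3
    · rw [max_eq_right h3.le, min_eq_left h3.le]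
      omega
    · rw [max_eq_left h3.le, min_eq_right h3.le]
      omega

theorem hooks0_length (m : ℕ) (b : Bool) (g : Gate) : (hooks0 m b g).length ≤ 3 := by
  cases g with
  | inp l => simp [hooks0]
  | nand j k => cases b <;> simp [hooks0]

theorem wire_length (m : ℕ) (C : ℕ → Gate) (hC : IsCircuit m C) (x : ℕ → Bool) (v : ℕ)
    (hv : v < 4 * m) : (wire2 m C x v).length ≤ 3 * (8 * (4 * m)) := by
  have h1 := congrArg List.length (wire_shp m C x v)
  rw [List.length_map, List.length_map] at h1
  rw [h1]
  exact (prog_length _ _ (hooks0_ok m C hC v hv)).trans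
    (Nat.mul_le_mul_right _ (hooks0_length _ _ _))

theorem knot2_crossings (m : ℕ) (C : ℕ → Gate) (hC : IsCircuit m C) (x : ℕ → Bool) :
    crossings (knot2 m C x) ≤ 1536 * m ^ 2 := by
  unfold knot2 dia
  rw [cr_append, cr_append, cr_append, cr_base, cr_nest, cr_cap, cr_nil]
  have h1 := cr_cols (3 * (8 * (4 * m))) ((List.range (4 * m)).map (wire2 m C x)) (by
      intro E hE
      obtain ⟨v, hv, rfl⟩ := List.mem_map.1 hE
      exact wire_length m C hC x v (List.mem_range.1 hv)) 0
  rw [List.length_map, List.length_range] at h1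
  calc _ ≤ 4 * m * (4 * (3 * (8 * (4 * m)))) := by
        rw [Nat.zero_add]; exact h1
    _ = 1536 * m ^ 2 := by ring

/-! ### the shadow -/

theorem sd_append (u v : Word) : shadow (u ++ v) = shadow u ++ shadow v := by
  unfold shadow
  rw [List.map_append]

theorem sd_length (w : Word) : (shadow w).length = w.length := by
  unfold shadow
  rw [List.length_map]

theorem sd_low (p : ℕ) (P : Prog) : ∀ c, shadow (low p c P) = shadow (low p c (P.map shp)) := by
  induction P with
  | nil => intro c; rfl
  | cons I P ih =>
    intro c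
    cases I with
    | D s =>
      show shadow (low p c (.D s :: P)) = shadow (low p c (.D true :: P.map shp))
      rw [low_D, low_D]
      show (Kind.X true, p + 2 * c) :: (Kind.X true, p + 2 * c + 1) :: shadow (low p (c + 1) P) =
        (Kind.X true, p + 2 * c) :: (Kind.X true, p + 2 * c + 1) ::
          shadow (low p (c + 1) (P.map shp))
      rw [ih]
    | U s =>
      cases c with
      | zero => rfl
      | succ c =>
        show shadow (low p (c + 1) (.U s :: P)) = shadow (low p (c + 1) (.U true :: P.map shp))
        rw [low_U, low_U]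
        show (Kind.X true, p + 2 * c + 1) :: (Kind.X true, p + 2 * c) :: shadow (low p c P) =
          (Kind.X true, p + 2 * c + 1) :: (Kind.X true, p + 2 * c) ::
            shadow (low p c (P.map shp))
        rw [ih]

theorem inv_shp (P : Prog) : inv (P.map shp) = (inv P).map shp := by
  unfold inv
  rw [List.map_map, List.map_reverse, List.map_map]
  congr 1
  refine List.map_congr_left ?_
  intro I _
  cases I <;> rfl

theorem sd_col (i : ℕ) (E F : Prog) (h : E.map shp = F.map shp) :
    shadow (col i E) = shadow (col i F) := by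
  have h1 : shadow (low (4 * i + 1) 0 E) = shadow (low (4 * i + 1) 0 F) := by
    rw [sd_low, h, ← sd_low]
  have h2 : shadow (low (4 * i + 3) 0 (inv E)) = shadow (low (4 * i + 3) 0 (inv F)) := by
    rw [sd_low, ← inv_shp, h, inv_shp, ← sd_low]
  unfold col
  rw [sd_append, sd_append]
  show ((Kind.cup, 4 * i) :: shadow (low (4 * i + 1) 0 E)) ++
      ((Kind.cup, 4 * i + 2) :: shadow (low (4 * i + 3) 0 (inv E))) =
    ((Kind.cup, 4 * i) :: shadow (low (4 * i + 1) 0 F)) ++
      ((Kind.cup, 4 * i + 2) :: shadow (low (4 * i + 3) 0 (inv F)))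
  rw [h1, h2]

theorem sd_cols (f g : ℕ → Prog) (l : List ℕ) (h : ∀ v ∈ l, (f v).map shp = (g v).map shp) :
    ∀ i, shadow (cols i (l.map f)) = shadow (cols i (l.map g)) := by
  induction l with
  | nil => intro i; rfl
  | cons v l ih =>
    intro i
    show shadow (col i (f v) ++ cols (i + 1) (l.map f)) =
      shadow (col i (g v) ++ cols (i + 1) (l.map g))
    rw [sd_append, sd_append, sd_col i _ _ (h v List.mem_cons_self),
      ih (fun u hu => h u (List.mem_cons_of_mem _ hu))]

theorem wire_shp2 (m : ℕ) (C : ℕ → Gate) (x y : ℕ → Bool) (v : ℕ) :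
    (wire2 m C x v).map shp = (wire2 m C y v).map shp := by
  rw [wire_shp, wire_shp]

theorem knot2_shadow (m : ℕ) (C : ℕ → Gate) (x y : ℕ → Bool) :
    shadow (knot2 m C x) = shadow (knot2 m C y) := by
  unfold knot2 dia
  rw [sd_append, sd_append, sd_append, sd_append, sd_append, sd_append,
    List.length_map, List.length_map,
    sd_cols (wire2 m C x) (wire2 m C y) _ (fun v _ => wire_shp2 m C x y v)]

/-! ### every letter depends on at most one bit -/

/-- every letter depends on at most one bit of the input -/
def Prj (F : (ℕ → Bool) → Word) : Prop :=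
  (∀ x y, (F x).length = (F y).length) ∧ ∀ i : ℕ, ∃ l, ∀ x y, x l = y l → (F x)[i]? = (F y)[i]?

theorem prj_const (w : Word) : Prj fun _ => w :=
  ⟨fun _ _ => rfl, fun _ => ⟨0, fun _ _ _ => rfl⟩⟩

theorem prj_append (F H : (ℕ → Bool) → Word) (hF : Prj F) (hH : Prj H) :
    Prj fun x => F x ++ H x := by
  refine ⟨fun x y => ?_, fun i => ?_⟩
  · rw [List.length_append, List.length_append, hF.1 x y, hH.1 x y]
  · by_cases hi : i < (F fun _ => true).length
    · obtain ⟨l, hl⟩ := hF.2 i
      refine ⟨l, fun x y h => ?_⟩
      rw [List.getElem?_append_left (by rw [hF.1 x fun _ => true]; exact hi),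
        List.getElem?_append_left (by rw [hF.1 y fun _ => true]; exact hi)]
      exact hl x y h
    · obtain ⟨l, hl⟩ := hH.2 (i - (F fun _ => true).length)
      refine ⟨l, fun x y h => ?_⟩
      rw [List.getElem?_append_right (by rw [hF.1 x fun _ => true]; omega),
        List.getElem?_append_right (by rw [hF.1 y fun _ => true]; omega),
        hF.1 x fun _ => true, hF.1 y fun _ => true]
      exact hl x y h

theorem wire2_bit (m : ℕ) (C : ℕ → Gate) (v : ℕ) :
    ∃ l, ∀ x y : ℕ → Bool, x l = y l → wire2 m C x v = wire2 m C y v := by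
  unfold wire2
  generalize decide (v % 4 < 2) = b
  cases C (v / 4) with
  | inp l =>
    refine ⟨l, fun x y h => ?_⟩
    rw [hooks2_inp, hooks2_inp, h]
  | nand j k => exact ⟨0, fun x y _ => rfl⟩

theorem prj_cols (m : ℕ) (C : ℕ → Gate) (L : List ℕ) :
    ∀ i, Prj fun x => cols i (L.map (wire2 m C x)) := by
  induction L with
  | nil => intro i; exact prj_const _
  | cons v L ih =>
    intro i
    refine prj_append (fun x => col i (wire2 m C x v))
      (fun x => cols (i + 1) (L.map (wire2 m C x))) ⟨fun x y => ?_, fun j => ?_⟩ (ih (i + 1))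
    · rw [← sd_length, sd_col i _ _ (wire_shp2 m C x y v), sd_length]
    · obtain ⟨l, hl⟩ := wire2_bit m C v
      refine ⟨l, fun x y h => ?_⟩
      show (col i (wire2 m C x v))[j]? = (col i (wire2 m C y v))[j]?
      rw [hl x y h]

theorem knot2_prj (m : ℕ) (C : ℕ → Gate) : Prj (knot2 m C) := by
  have h : knot2 m C = fun x => base (4 * m) ++ cols 0 ((List.range (4 * m)).map (wire2 m C x)) ++
      nest (4 * (4 * m)) ++ [(.cap, 0)] := by
    funext x
    unfold knot2 dia
    rw [List.length_map, List.length_range]
  rw [h]
  exact prj_append _ _ (prj_append _ _ (prj_append _ _ (prj_const _) (prj_cols m C _ 0))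
    (prj_const _)) (prj_const _)

end Pool.Agent.Helper50.KP
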